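import Mathlib

/-! Coxeter relations of type A and the order of the group they generate (from the starting file
`Results/MP_fed0c4_co/Superlinear.lean`). -/

set_option autoImplicit false

namespace Pool.Agent.K6.H89.VU

section cox

variable {G : Type} [Group G]

/-- Coxeter relations of type A for the first `k` elements of a sequence -/
structure Cox (s : ℕ → G) (k : ℕ) : Prop where
  sq : ∀ i, i < k → s i * s i = 1
  br : ∀ i, i + 1 < k → s i * s (i + 1) * s i = s (i + 1) * s i * s (i + 1)
  cm : ∀ i j, i + 2 ≤ j → j < k → s i * s j = s j * s i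

lemma Cox.mono {s : ℕ → G} {k l : ℕ} (h : Cox s k) (hl : l ≤ k) : Cox s l :=
  ⟨fun i hi => h.sq i (by omega), fun i hi => h.br i (by omega),
    fun i j hij hj => h.cm i j hij (by omega)⟩

/-- descending products `s (j+l-1) * ... * s j` -/
def T (s : ℕ → G) (j : ℕ) : ℕ → G
  | 0 => 1
  | l + 1 => s (j + l) * T s j l

lemma T_succ' (s : ℕ → G) (j l : ℕ) : T s j (l + 1) = T s (j + 1) l * s j := by
  induction l with
  | zero => show s (j + 0) * 1 = 1 * s j; rw [mul_one, one_mul, add_zero]
  | succ l ih =>
    show s (j + (l + 1)) * T s j (l + 1) = s (j + 1 + l) * T s (j + 1) l * s j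
    rw [ih, mul_assoc]
    congr 2
    omega

lemma T_comm_low {s : ℕ → G} {k : ℕ} (h : Cox s k) {i j l : ℕ} (hij : i + 2 ≤ j)
    (hk : j + l ≤ k) : T s j l * s i = s i * T s j l := by
  induction l with
  | zero => show 1 * s i = s i * 1; rw [one_mul, mul_one]
  | succ l ih =>
    show s (j + l) * T s j l * s i = s i * (s (j + l) * T s j l)
    rw [mul_assoc, ih (by omega), ← mul_assoc, ← mul_assoc, h.cm i (j + l) (by omega) (by omega)]

lemma T_comm_high {s : ℕ → G} {k : ℕ} (h : Cox s k) {i j l : ℕ} (hij : j + l + 1 ≤ i)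
    (hk : i < k) : T s j l * s i = s i * T s j l := by
  induction l with
  | zero => show 1 * s i = s i * 1; rw [one_mul, mul_one]
  | succ l ih =>
    show s (j + l) * T s j l * s i = s i * (s (j + l) * T s j l)
    rw [mul_assoc, ih (by omega), ← mul_assoc, ← mul_assoc, h.cm (j + l) i (by omega) (by omega)]

lemma T_mid {s : ℕ → G} {k : ℕ} (h : Cox s k) {i j l : ℕ} (hi : j < i) (hi' : i < j + l)
    (hk : j + l ≤ k) : T s j l * s i = s (i - 1) * T s j l := by
  induction l with
  | zero => omega
  | succ l ih =>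
    by_cases hil : i < j + l
    · show s (j + l) * T s j l * s i = s (i - 1) * (s (j + l) * T s j l)
      rw [mul_assoc, ih hil (by omega), ← mul_assoc, ← mul_assoc,
        h.cm (i - 1) (j + l) (by omega) (by omega)]
    · have hi2 : i = j + l := by omega
      subst hi2
      obtain ⟨m, rfl⟩ : ∃ m, l = m + 1 := ⟨l - 1, by omega⟩
      show s (j + (m + 1)) * (s (j + m) * T s j m) * s (j + (m + 1)) =
        s (j + (m + 1) - 1) * (s (j + (m + 1)) * (s (j + m) * T s j m))
      have e1 := T_comm_high h (i := j + (m + 1)) (j := j) (l := m) (by omega) (by omega)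
      have e2 : j + (m + 1) - 1 = j + m := by omega
      have e3 := h.br (j + m) (by omega)
      have e4 : j + m + 1 = j + (m + 1) := by omega
      rw [e4] at e3
      rw [e2]
      calc s (j + (m + 1)) * (s (j + m) * T s j m) * s (j + (m + 1))
          = s (j + (m + 1)) * s (j + m) * (T s j m * s (j + (m + 1))) := by simp only [mul_assoc]
        _ = s (j + (m + 1)) * s (j + m) * (s (j + (m + 1)) * T s j m) := by rw [e1]
        _ = (s (j + (m + 1)) * s (j + m) * s (j + (m + 1))) * T s j m := by simp only [mul_assoc]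
        _ = (s (j + m) * s (j + (m + 1)) * s (j + m)) * T s j m := by rw [e3]
        _ = _ := by simp only [mul_assoc]

/-- the subgroup generated by the first `k` elements -/
def CG (s : ℕ → G) (k : ℕ) : Subgroup G := Subgroup.closure {g | ∃ i, i < k ∧ s i = g}

lemma mem_CG (s : ℕ → G) {k i : ℕ} (hi : i < k) : s i ∈ CG s k :=
  Subgroup.subset_closure ⟨i, hi, rfl⟩

lemma CG_sub {s : ℕ → G} {k : ℕ} (h : Cox s (k + 1)) : ((CG s (k + 1) : Subgroup G) : Set G) ⊆
    ⋃ j ∈ Finset.range (k + 2), (fun x => x * T s j (k + 1 - j)) '' (CG s k : Set G) := by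
  -- closure under right multiplication
  have key : ∀ x ∈ (⋃ j ∈ Finset.range (k + 2), (fun x => x * T s j (k + 1 - j)) ''
      (CG s k : Set G)), ∀ i, i < k + 1 → x * s i ∈ (⋃ j ∈ Finset.range (k + 2),
      (fun x => x * T s j (k + 1 - j)) '' (CG s k : Set G)) := by
    intro x hx i hi
    simp only [Set.mem_iUnion, Finset.mem_range, Set.mem_image, exists_prop] at hx ⊢
    obtain ⟨j, hj, y, hy, rfl⟩ := hx
    have hj' : j ≤ k + 1 := by omega
    rcases lt_trichotomy i j with hij | hij | hij
    · by_cases hij2 : i + 1 = j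
      · -- lengthen
        refine ⟨i, by omega, y, hy, ?_⟩
        have e : k + 1 - i = (k + 1 - j) + 1 := by omega
        rw [e, T_succ', ← hij2, ← mul_assoc]
      · refine ⟨j, hj, y * s i, ?_, ?_⟩
        · exact (CG s k).mul_mem hy (mem_CG s (by omega))
        · rw [mul_assoc, mul_assoc, T_comm_low h (by omega) (by omega)]
    · subst hij
      -- shorten
      refine ⟨i + 1, by omega, y, hy, ?_⟩
      have e : k + 1 - i = (k + 1 - (i + 1)) + 1 := by omega
      rw [e, T_succ', mul_assoc, mul_assoc, h.sq i hi, mul_one]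
    · refine ⟨j, hj, y * s (i - 1), ?_, ?_⟩
      · exact (CG s k).mul_mem hy (mem_CG s (by omega))
      · rw [mul_assoc, mul_assoc, T_mid h hij (by omega) (by omega)]
  have hinv : ∀ i, i < k + 1 → (s i)⁻¹ = s i := fun i hi => inv_eq_of_mul_eq_one_left (h.sq i hi)
  intro x hx
  refine Subgroup.closure_induction_right (p := fun x _ => x ∈ (⋃ j ∈ Finset.range (k + 2),
      (fun x => x * T s j (k + 1 - j)) '' (CG s k : Set G))) ?_ ?_ ?_ hx
  · simp only [Set.mem_iUnion, Finset.mem_range, Set.mem_image, exists_prop]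
    refine ⟨k + 1, by omega, 1, (CG s k).one_mem, ?_⟩
    rw [Nat.sub_self, one_mul]
    rfl
  · rintro x _ _ ⟨i, hi, rfl⟩ hx
    exact key x hx i hi
  · rintro x _ _ ⟨i, hi, rfl⟩ hx
    rw [hinv i hi]
    exact key x hx i hi

lemma CG_fin {s : ℕ → G} (k : ℕ) (h : Cox s k) :
    ((CG s k : Subgroup G) : Set G).Finite ∧ ((CG s k : Subgroup G) : Set G).ncard ≤
      (k + 1).factorial := by
  induction k with
  | zero =>
    have : CG s 0 = ⊥ := by
      unfold CG
      rw [Subgroup.closure_eq_bot_iff]
      rintro x ⟨i, hi, -⟩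
      omega
    rw [this]
    constructor
    · rw [Subgroup.coe_bot]; exact Set.finite_singleton 1
    · rw [Subgroup.coe_bot, Set.ncard_singleton]; decide
  | succ k ih =>
    obtain ⟨h1, h2⟩ := ih (h.mono (by omega))
    have hf : ∀ j, ((fun x => x * T s j (k + 1 - j)) '' (CG s k : Set G)).Finite :=
      fun j => h1.image _
    have hU : (⋃ j ∈ Finset.range (k + 2), (fun x => x * T s j (k + 1 - j)) ''
        (CG s k : Set G)).Finite :=
      Set.Finite.biUnion (Finset.finite_toSet _) (fun j _ => hf j)
    refine ⟨hU.subset (CG_sub h), ?_⟩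
    refine (Set.ncard_le_ncard (CG_sub h) hU).trans ?_
    have h3 : ∀ (t : Finset ℕ), (⋃ j ∈ t, (fun x => x * T s j (k + 1 - j)) ''
        (CG s k : Set G)).ncard ≤ t.card * (k + 1).factorial := by
      classical
      intro t
      induction t using Finset.induction_on with
      | empty => simp
      | insert a t ha iht =>
        rw [Finset.set_biUnion_insert, Finset.card_insert_of_notMem ha, add_mul, one_mul]
        refine (Set.ncard_union_le _ _).trans ?_
        have h5 := (Set.ncard_image_le (f := fun x => x * T s a (k + 1 - a)) h1).trans h2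
        have h6 := Nat.add_le_add iht h5
        rw [add_comm]
        exact h6
    have h4 := h3 (Finset.range (k + 2))
    rw [Finset.card_range] at h4
    rw [Nat.factorial_succ (k + 1)]
    exact h4

end cox

end Pool.Agent.K6.H89.VU
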