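import Pool.Agent.K6.H89.VU.Rep

/-! Forests and the description of group elements by forests. -/

set_option autoImplicit false

namespace Pool.Agent.K6.H89.VU

/-- the number of inner nodes of a forest -/
def ncs : List Tr → ℕ
  | [] => 0
  | T :: L => T.nc + ncs L

theorem ncs_append (L M : List Tr) : ncs (L ++ M) = ncs L + ncs M := by
  induction L with
  | nil => show ncs M = 0 + ncs M; omega
  | cons T L ih => show T.nc + ncs (L ++ M) = T.nc + ncs L + ncs M; omega

theorem ncs_swap (l1 l2 : List Tr) (A B : Tr) :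
    ncs (l1 ++ A :: B :: l2) = ncs (l1 ++ B :: A :: l2) := by
  rw [ncs_append, ncs_append]
  show ncs l1 + (A.nc + (B.nc + ncs l2)) = ncs l1 + (B.nc + (A.nc + ncs l2))
  omega

theorem ncs_move (l1 l2 : List Tr) (A : Tr) :
    ncs (l1 ++ A :: l2) = ncs (A :: (l1 ++ l2)) := by
  rw [ncs_append]
  show ncs l1 + (A.nc + ncs l2) = A.nc + ncs (l1 ++ l2)
  rw [ncs_append]
  omega

namespace VSys

variable {Γ : Type} [Group Γ] (V : VSys Γ)

/-- the forest `L` grows at the leaves `j, j + 1, …` of a comb with `k` leaves -/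
def C (k : ℕ) : ℕ → List Tr → Γ
  | _, [] => 1
  | j, T :: L => C k (j + 1) L * V.Y (k + ncs L) j T

/-- products of successive splittings of leaves -/
inductive TT : ℕ → Γ → Prop
  | base : TT 1 1
  | step {k : ℕ} {g : Γ} {i : ℕ} (h : TT k g) (hi : i < k) : TT (k + 1) (g * V.X k i)

variable {V}

theorem S_C_hi (L : List Tr) : ∀ {k j i : ℕ} (_ : i + 2 ≤ j) (_ : j + L.length ≤ k),
    V.S k i * V.C k j L = V.C k j L * V.S (k + ncs L) i := by
  induction L with
  | nil => intro k j i _ _; show _ * 1 = 1 * _; rw [one_mul, mul_one]; rfl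
  | cons T L ih =>
    intro k j i hij hk
    rw [List.length_cons] at hk
    show V.S k i * (V.C k (j + 1) L * V.Y (k + ncs L) j T) =
      V.C k (j + 1) L * V.Y (k + ncs L) j T * V.S (k + (T.nc + ncs L)) i
    have e : k + (T.nc + ncs L) = k + ncs L + T.nc := by omega
    rw [← mul_assoc, ih (j := j + 1) (by omega) (by omega), mul_assoc,
      S_Y_hi T hij (by omega), e, mul_assoc]

/-- Exchange of two neighbouring trees of a forest. -/
theorem swap_C (l1 l2 : List Tr) (A B : Tr) : ∀ {k j : ℕ} (_ : j + l1.length + 2 + l2.length ≤ k),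
    ∃ w ∈ V.Sg (k + ncs (l1 ++ A :: B :: l2)) (j + l1.length),
      V.S k (j + l1.length) * V.C k j (l1 ++ A :: B :: l2) =
        V.C k j (l1 ++ B :: A :: l2) * w := by
  induction l1 with
  | nil =>
    intro k j hk
    rw [List.length_nil, Nat.add_zero] at hk ⊢
    rw [List.nil_append, List.nil_append]
    obtain ⟨w, hw, h⟩ := swap_two (V := V) A B (k := k + ncs l2) (i := j) (by omega)
    have h2 := S_C_hi (V := V) l2 (k := k) (j := j + 2) (i := j) le_rfl (by omega)
    have e1 : k + ncs l2 + A.nc + B.nc = k + ncs (A :: B :: l2) := by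
      show _ = k + (A.nc + (B.nc + ncs l2)); omega
    have e2 : k + ncs (B :: l2) = k + ncs l2 + B.nc := by
      show k + (B.nc + ncs l2) = _; omega
    have e3 : k + ncs (A :: l2) = k + ncs l2 + A.nc := by
      show k + (A.nc + ncs l2) = _; omega
    rw [e1] at hw
    refine ⟨w, hw, ?_⟩
    show V.S k j * (V.C k (j + 1 + 1) l2 * V.Y (k + ncs l2) (j + 1) B *
        V.Y (k + ncs (B :: l2)) j A) =
      V.C k (j + 1 + 1) l2 * V.Y (k + ncs l2) (j + 1) A * V.Y (k + ncs (A :: l2)) j B * w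
    rw [e2, e3]
    calc V.S k j * (V.C k (j + 1 + 1) l2 * V.Y (k + ncs l2) (j + 1) B *
          V.Y (k + ncs l2 + B.nc) j A)
        = (V.S k j * V.C k (j + 2) l2) * (V.Y (k + ncs l2) (j + 1) B *
          V.Y (k + ncs l2 + B.nc) j A) := by simp only [mul_assoc]
      _ = V.C k (j + 2) l2 * (V.S (k + ncs l2) j * (V.Y (k + ncs l2) (j + 1) B *
          V.Y (k + ncs l2 + B.nc) j A)) := by rw [h2]; simp only [mul_assoc]
      _ = _ := by rw [h]; simp only [mul_assoc]
  | cons T l1 ih =>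
    intro k j hk
    rw [List.length_cons] at hk
    obtain ⟨w, hw, h⟩ := ih (k := k) (j := j + 1) (by omega)
    obtain ⟨w', hw', h'⟩ := Sg_Y (V := V) T (k := k + ncs (l1 ++ A :: B :: l2))
      (i := j + 1 + l1.length) (l := j) (by omega) hw
    have e0 : j + (T :: l1).length = j + 1 + l1.length := by rw [List.length_cons]; omega
    have e1 : k + ncs (T :: l1 ++ A :: B :: l2) = k + ncs (l1 ++ A :: B :: l2) + T.nc := by
      show k + (T.nc + ncs (l1 ++ A :: B :: l2)) = _; omega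
    rw [e0, e1]
    refine ⟨w', Sg_mono (by omega) hw', ?_⟩
    show V.S k (j + 1 + l1.length) * (V.C k (j + 1) (l1 ++ A :: B :: l2) *
        V.Y (k + ncs (l1 ++ A :: B :: l2)) j T) =
      V.C k (j + 1) (l1 ++ B :: A :: l2) * V.Y (k + ncs (l1 ++ B :: A :: l2)) j T * w'
    rw [← mul_assoc, h, mul_assoc, h', ncs_swap l1 l2 A B, mul_assoc]

/-- A descending product moves the first tree of a forest to the right. -/
theorem rho_C (L : List Tr) (A : Tr) (M : List Tr) :
    ∀ {k j : ℕ} (_ : j + 1 + L.length + M.length ≤ k),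
    ∃ w ∈ V.Sg (k + ncs (A :: (L ++ M))) j,
      V.rho k j L.length * V.C k j (A :: (L ++ M)) = V.C k j (L ++ A :: M) * w := by
  induction L with
  | nil =>
    intro k j _
    exact ⟨1, Subgroup.one_mem _, by show 1 * _ = _ * 1; rw [one_mul, mul_one]; rfl⟩
  | cons B L ih =>
    intro k j hk
    rw [List.length_cons] at hk
    obtain ⟨w1, hw1, h1⟩ := swap_C (V := V) [] (L ++ M) A B (k := k) (j := j)
      (by rw [List.length_nil, List.length_append]; omega)
    simp only [List.nil_append, List.length_nil, Nat.add_zero] at h1 hw1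
    obtain ⟨w2, hw2, h2⟩ := ih (k := k) (j := j + 1) (by omega)
    obtain ⟨w3, hw3, h3⟩ := Sg_Y (V := V) B (l := j) (by omega) hw2
    have e1 : k + ncs (A :: (L ++ M)) + B.nc = k + ncs (A :: (B :: L ++ M)) := by
      show k + (A.nc + ncs (L ++ M)) + B.nc = k + (A.nc + (B.nc + ncs (L ++ M))); omega
    rw [e1] at hw3
    refine ⟨w3 * w1, Subgroup.mul_mem _ (Sg_mono (by omega) hw3) hw1, ?_⟩
    show V.rho k (j + 1) L.length * V.S k j * V.C k j (A :: B :: (L ++ M)) =
      V.C k (j + 1) (L ++ A :: M) * V.Y (k + ncs (L ++ A :: M)) j B * (w3 * w1)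
    rw [mul_assoc, h1]
    show V.rho k (j + 1) L.length * (V.C k (j + 1) (A :: (L ++ M)) *
      V.Y (k + ncs (A :: (L ++ M))) j B * w1) = _
    rw [ncs_move L M A]
    calc V.rho k (j + 1) L.length * (V.C k (j + 1) (A :: (L ++ M)) *
          V.Y (k + ncs (A :: (L ++ M))) j B * w1)
        = (V.rho k (j + 1) L.length * V.C k (j + 1) (A :: (L ++ M))) *
          V.Y (k + ncs (A :: (L ++ M))) j B * w1 := by simp only [mul_assoc]
      _ = V.C k (j + 1) (L ++ A :: M) * (w2 * V.Y (k + ncs (A :: (L ++ M))) j B) * w1 := by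
          rw [h2]; simp only [mul_assoc]
      _ = _ := by rw [h3]; simp only [mul_assoc]

variable (V)

/-- the exchange of the first and the last leaf of the comb with `m + 2` leaves -/
def ee (m : ℕ) : Γ := (V.rho (m + 2) 0 m)⁻¹ * V.S (m + 2) m * V.rho (m + 2) 0 m

variable {V}

theorem ee_mul_self (m : ℕ) : V.ee m * V.ee m = 1 := by
  unfold ee
  calc (V.rho (m + 2) 0 m)⁻¹ * V.S (m + 2) m * V.rho (m + 2) 0 m *
        ((V.rho (m + 2) 0 m)⁻¹ * V.S (m + 2) m * V.rho (m + 2) 0 m)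
      = (V.rho (m + 2) 0 m)⁻¹ * (V.S (m + 2) m * V.S (m + 2) m) * V.rho (m + 2) 0 m := by group
    _ = 1 := by rw [V.SS]; group

/-- Exchange of the first and the last tree of a forest. -/
theorem ee_C (m : ℕ) (L : List Tr) (hL : L.length = m) (A Z : Tr) :
    ∃ w ∈ V.Sg (m + 2 + ncs (A :: (L ++ [Z]))) 0,
      V.ee m * V.C (m + 2) 0 (A :: (L ++ [Z])) = V.C (m + 2) 0 (Z :: (L ++ [A])) * w := by
  subst hL
  set k := L.length + 2
  obtain ⟨w1, hw1, h1⟩ := rho_C (V := V) L A [Z] (k := k) (j := 0)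
    (by rw [List.length_singleton]; omega)
  obtain ⟨w2, hw2, h2⟩ := swap_C (V := V) L [] A Z (k := k) (j := 0)
    (by rw [List.length_nil]; omega)
  obtain ⟨w3, hw3, h3⟩ := rho_C (V := V) L Z [A] (k := k) (j := 0)
    (by rw [List.length_singleton]; omega)
  rw [Nat.zero_add] at h2 hw2
  have e1 : ncs (L ++ [A, Z]) = ncs (A :: (L ++ [Z])) := ncs_move L [Z] A
  have e2 : ncs (Z :: (L ++ [A])) = ncs (A :: (L ++ [Z])) := by
    rw [← ncs_move L [A] Z, ← ncs_swap L [] A Z, e1]
  rw [e1] at hw2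
  rw [e2] at hw3
  refine ⟨w3⁻¹ * (w2 * w1), Subgroup.mul_mem _ (Subgroup.inv_mem _ hw3)
    (Subgroup.mul_mem _ (Sg_mono (Nat.zero_le _) hw2) hw1), ?_⟩
  have h4 : (V.rho k 0 L.length)⁻¹ * V.C k 0 (L ++ [Z, A]) =
      V.C k 0 (Z :: (L ++ [A])) * w3⁻¹ := by
    rw [inv_mul_eq_iff_eq_mul, ← mul_assoc, h3, mul_assoc, mul_inv_cancel, mul_one]
  show (V.rho k 0 L.length)⁻¹ * V.S k L.length * V.rho k 0 L.length *
    V.C k 0 (A :: (L ++ [Z])) = _
  calc (V.rho k 0 L.length)⁻¹ * V.S k L.length * V.rho k 0 L.length * V.C k 0 (A :: (L ++ [Z]))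
      = (V.rho k 0 L.length)⁻¹ * (V.S k L.length * (V.rho k 0 L.length *
        V.C k 0 (A :: (L ++ [Z])))) := by simp only [mul_assoc]
    _ = (V.rho k 0 L.length)⁻¹ * ((V.S k L.length * V.C k 0 (L ++ [A, Z])) * w1) := by
        rw [h1]; simp only [mul_assoc]
    _ = ((V.rho k 0 L.length)⁻¹ * V.C k 0 (L ++ [Z, A])) * (w2 * w1) := by
        rw [h2]; simp only [mul_assoc]
    _ = _ := by rw [h4]; simp only [mul_assoc]

/-- A tree with root at the last leaf of a comb is a pair of trees on a larger comb. -/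
theorem C_last (B1 B2 : Tr) (L : List Tr) : ∀ {k j : ℕ} (_ : j + L.length + 1 = k),
    V.C (k + 1) j (L ++ [B1, B2]) = V.C k j (L ++ [.node B1 B2]) := by
  induction L with
  | nil =>
    intro k j hk
    rw [List.length_nil] at hk
    show 1 * V.Y (k + 1 + 0) (j + 1) B2 * V.Y (k + 1 + (B2.nc + 0)) j B1 =
      1 * (V.X (k + 0) j * (V.Y (k + 0 + 1) (j + 1) B2 * V.Y (k + 0 + 1 + B2.nc) j B1))
    rw [X_ge (by omega)]
    simp only [Nat.add_zero, one_mul]
  | cons T L ih =>
    intro k j hk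
    rw [List.length_cons] at hk
    show V.C (k + 1) (j + 1) (L ++ [B1, B2]) * V.Y (k + 1 + ncs (L ++ [B1, B2])) j T =
      V.C k (j + 1) (L ++ [.node B1 B2]) * V.Y (k + ncs (L ++ [.node B1 B2])) j T
    have e : k + 1 + ncs (L ++ [B1, B2]) = k + ncs (L ++ [.node B1 B2]) := by
      rw [ncs_append, ncs_append]
      show k + 1 + (ncs L + (B1.nc + (B2.nc + 0))) = k + (ncs L + (B1.nc + B2.nc + 1 + 0))
      omega
    rw [ih (by omega), e]

/-! ### Products of splittings -/

theorem TT_Y (T : Tr) : ∀ {k i : ℕ} {g : Γ} (_ : V.TT k g) (_ : i < k),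
    V.TT (k + T.nc) (g * V.Y k i T) := by
  induction T with
  | leaf => intro k i g h _; show V.TT k (g * 1); rw [mul_one]; exact h
  | node L R hL hR =>
    intro k i g h hi
    have h1 := hR (i := i + 1) (TT.step h hi) (by omega)
    have h2 := hL (i := i) h1 (by omega)
    have e : k + 1 + R.nc + L.nc = k + (Tr.node L R).nc := by
      show _ = k + (L.nc + R.nc + 1); omega
    rw [e] at h2
    have e2 : g * V.X k i * V.Y (k + 1) (i + 1) R * V.Y (k + 1 + R.nc) i L =
        g * V.Y k i (.node L R) := by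
      show _ = g * (V.X k i * (V.Y (k + 1) (i + 1) R * V.Y (k + 1 + R.nc) i L))
      simp only [mul_assoc]
    rw [e2] at h2
    exact h2

theorem TT_C (L : List Tr) : ∀ {k j : ℕ} {g : Γ} (_ : V.TT k g) (_ : j + L.length ≤ k),
    V.TT (k + ncs L) (g * V.C k j L) := by
  induction L with
  | nil => intro k j g h _; show V.TT k (g * 1); rw [mul_one]; exact h
  | cons T L ih =>
    intro k j g h hk
    rw [List.length_cons] at hk
    have h1 := TT_Y T (i := j) (ih (j := j + 1) h (by omega)) (by omega)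
    have e : k + ncs L + T.nc = k + ncs (T :: L) := by
      show _ = k + (T.nc + ncs L); omega
    rw [e, mul_assoc] at h1
    exact h1

theorem TT_one (k : ℕ) : V.TT (k + 1) 1 := by
  induction k with
  | zero => exact TT.base
  | succ k ih =>
    have h := TT.step ih (Nat.lt_succ_self k)
    rw [X_ge (by omega), one_mul] at h
    exact h

/-! ### Tree pairs -/

variable (V)

/-- elements with a tree pair with `K` leaves -/
def E (K : ℕ) : Set Γ := {g | ∃ a w b : Γ, V.TT K a ∧ w ∈ V.Sg K 0 ∧ V.TT K b ∧ g = a * w * b⁻¹}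

variable {V}

theorem expand {K : ℕ} {w : Γ} (hw : w ∈ V.Sg K 0) {i : ℕ} (hi : i < K) :
    ∃ i' < K, ∃ w' ∈ V.Sg (K + 1) 0, w = V.X K i * w' * (V.X K i')⁻¹ := by
  obtain ⟨i', hi', w', hw', h⟩ := Sg_X' (Subgroup.inv_mem _ hw) i hi
  refine ⟨i', hi', w'⁻¹, Subgroup.inv_mem _ hw', ?_⟩
  have : V.X K i = w * (V.X K i' * w') := by rw [← h, ← mul_assoc, mul_inv_cancel, one_mul]
  rw [this]
  group

theorem E_succ {K : ℕ} (hK : 0 < K) : V.E K ⊆ V.E (K + 1) := by
  rintro g ⟨a, w, b, ha, hw, hb, rfl⟩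
  obtain ⟨i', hi', w', hw', h⟩ := expand hw hK
  refine ⟨a * V.X K 0, w', b * V.X K i', TT.step ha hK, hw', TT.step hb hi', ?_⟩
  rw [h]
  group

theorem E_mono {K M : ℕ} (hK : 0 < K) (h : K ≤ M) : V.E K ⊆ V.E M := by
  induction M, h using Nat.le_induction with
  | base => exact le_rfl
  | succ M hM ih => exact ih.trans (E_succ (by omega))

/-! ### Description of elements by forests with `m + 3` trees -/

variable (V)

/-- `g` is described by the forest `Q` -/
def St (m : ℕ) (g : Γ) (Q : List Tr) : Prop :=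
  Q.length = m + 3 ∧ ∃ w ∈ V.Sg (m + 3 + ncs Q) 0, ∃ b, V.TT (m + 3 + ncs Q) b ∧
    g = V.C (m + 3) 0 Q * w * b⁻¹

variable {V}

theorem St.mem_E {m : ℕ} {g : Γ} {Q : List Tr} (h : V.St m g Q) : g ∈ V.E (m + 3 + ncs Q) := by
  obtain ⟨hQ, w, hw, b, hb, rfl⟩ := h
  have h1 := TT_C (V := V) Q (k := m + 3) (j := 0) (TT_one (m + 2)) (by omega)
  rw [one_mul] at h1
  exact ⟨_, w, b, h1, hw, hb, rfl⟩

theorem St.swap {m : ℕ} {g : Γ} {l1 l2 : List Tr} {A B : Tr}
    (h : V.St m g (l1 ++ A :: B :: l2)) :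
    V.St m (V.S (m + 3) l1.length * g) (l1 ++ B :: A :: l2) := by
  obtain ⟨hQ, w, hw, b, hb, rfl⟩ := h
  rw [List.length_append, List.length_cons, List.length_cons] at hQ
  obtain ⟨w', hw', h'⟩ := swap_C (V := V) l1 l2 A B (k := m + 3) (j := 0) (by omega)
  rw [Nat.zero_add] at h' hw'
  refine ⟨by rw [List.length_append, List.length_cons, List.length_cons]; omega, w' * w, ?_, b,
    ?_, ?_⟩
  · rw [← ncs_swap l1 l2 A B]
    exact Subgroup.mul_mem _ (Sg_mono (Nat.zero_le _) hw') hw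
  · rw [← ncs_swap l1 l2 A B]; exact hb
  · rw [← mul_assoc, ← mul_assoc, h', mul_assoc _ w' w]

theorem St.ee {m : ℕ} {g : Γ} {L : List Tr} {A1 A2 B1 B2 : Tr}
    (h : V.St m g (.node A1 A2 :: (L ++ [B1, B2]))) :
    V.St m (V.ee m * g) (.node B1 B2 :: (L ++ [A1, A2])) := by
  obtain ⟨hQ, w, hw, b, hb, rfl⟩ := h
  rw [List.length_cons, List.length_append, List.length_cons, List.length_singleton] at hQ
  have e1 := C_last (V := V) B1 B2 (.node A1 A2 :: L) (k := m + 2) (j := 0)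
    (by rw [List.length_cons]; omega)
  have e2 := C_last (V := V) A1 A2 (.node B1 B2 :: L) (k := m + 2) (j := 0)
    (by rw [List.length_cons]; omega)
  rw [List.cons_append, List.cons_append] at e1 e2
  obtain ⟨w', hw', h'⟩ := ee_C (V := V) m L (by omega) (.node A1 A2) (.node B1 B2)
  have e3 : m + 2 + ncs (.node A1 A2 :: (L ++ [.node B1 B2])) =
      m + 3 + ncs (.node B1 B2 :: (L ++ [A1, A2])) := by
    show m + 2 + (A1.nc + A2.nc + 1 + ncs (L ++ [.node B1 B2])) =
      m + 3 + (B1.nc + B2.nc + 1 + ncs (L ++ [A1, A2]))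
    rw [ncs_append, ncs_append]
    show m + 2 + (A1.nc + A2.nc + 1 + (ncs L + (B1.nc + B2.nc + 1 + 0))) =
      m + 3 + (B1.nc + B2.nc + 1 + (ncs L + (A1.nc + (A2.nc + 0))))
    omega
  have e4 : m + 3 + ncs (.node A1 A2 :: (L ++ [B1, B2])) =
      m + 3 + ncs (.node B1 B2 :: (L ++ [A1, A2])) := by
    show m + 3 + (A1.nc + A2.nc + 1 + ncs (L ++ [B1, B2])) =
      m + 3 + (B1.nc + B2.nc + 1 + ncs (L ++ [A1, A2]))
    rw [ncs_append, ncs_append]
    show m + 3 + (A1.nc + A2.nc + 1 + (ncs L + (B1.nc + (B2.nc + 0)))) =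
      m + 3 + (B1.nc + B2.nc + 1 + (ncs L + (A1.nc + (A2.nc + 0))))
    omega
  rw [e3] at hw'
  rw [e4] at hw hb
  refine ⟨by rw [List.length_cons, List.length_append, List.length_cons, List.length_singleton]
             omega, w' * w, Subgroup.mul_mem _ hw' hw, b, hb, ?_⟩
  rw [e1, e2, ← mul_assoc, ← mul_assoc, h', mul_assoc _ w' w]

theorem St.split {m : ℕ} {g : Γ} {L : List Tr} (h : V.St m g (.leaf :: L)) :
    V.St m g (.node .leaf .leaf :: L) := by
  obtain ⟨hQ, w, hw, b, hb, rfl⟩ := h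
  have e1 : m + 3 + ncs (.leaf :: L) = m + 3 + ncs L := by
    show m + 3 + (0 + ncs L) = _; omega
  have e2 : m + 3 + ncs (.node .leaf .leaf :: L) = m + 3 + ncs L + 1 := by
    show m + 3 + (0 + 0 + 1 + ncs L) = _; omega
  rw [e1] at hw hb
  obtain ⟨i', hi', w', hw', h'⟩ := expand (i := 0) hw (by omega)
  refine ⟨hQ, w', by rw [e2]; exact hw', b * V.X (m + 3 + ncs L) i', ?_, ?_⟩
  · rw [e2]; exact TT.step hb hi'
  · show V.C (m + 3) 1 L * 1 * w * b⁻¹ = V.C (m + 3) 1 L *
      (V.X (m + 3 + ncs L) 0 * (1 * 1)) * w' * (b * V.X (m + 3 + ncs L) i')⁻¹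
    rw [h']
    group

end VSys

end Pool.Agent.K6.H89.VU
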