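import Pool.Agent.K6.H89.VU.Weight

/-! The slow generators generate, and the growth bound. -/

set_option autoImplicit false

namespace Pool.Agent.K6.H89.VU

namespace VSys

variable {Γ : Type} [Group Γ] (V : VSys Γ)

open Classical in
/-- the slow generators as a finite set -/
noncomputable def gensF (m : ℕ) : Finset Γ :=
  insert (V.ee m) ((Finset.range (m + 2)).image fun i => V.S (m + 3) i)

variable {V}

theorem gensF_sub (m : ℕ) : (V.gensF m : Set Γ) ⊆ V.gens m := by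
  classical
  intro g hg
  unfold gensF at hg
  rw [Finset.coe_insert, Set.mem_insert_iff, Finset.mem_coe, Finset.mem_image] at hg
  rcases hg with rfl | ⟨i, hi, rfl⟩
  · exact Or.inr rfl
  · rw [Finset.mem_range] at hi
    exact Or.inl ⟨i, by omega, rfl⟩

theorem closure_gensF {m : ℕ} (hm : 1 ≤ m)
    (h : Subgroup.closure ({V.x 0, V.x 1, V.p 0, V.p 1, V.q 0, V.q 1} : Set Γ) = ⊤) :
    Subgroup.closure (V.gensF m : Set Γ) = ⊤ := by
  classical
  set H := Subgroup.closure (V.gensF m : Set Γ) with hH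
  have hS : ∀ i, i < m + 2 → V.S (m + 3) i ∈ H := by
    intro i hi
    apply Subgroup.subset_closure
    unfold gensF
    rw [Finset.coe_insert, Set.mem_insert_iff, Finset.mem_coe, Finset.mem_image]
    exact Or.inr ⟨i, Finset.mem_range.2 hi, rfl⟩
  have he : V.ee m ∈ H := by
    apply Subgroup.subset_closure
    unfold gensF
    rw [Finset.coe_insert, Set.mem_insert_iff]
    exact Or.inl rfl
  have hp : ∀ i, i ≤ m → V.p i ∈ H := by
    intro i hi
    have := hS i (by omega)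
    rwa [S_lt (by omega)] at this
  have hq : V.q (m + 1) ∈ H := by
    have := hS (m + 1) (by omega)
    rwa [S_ge (by omega)] at this
  have hrho : ∀ b i, i + b ≤ m → V.rho (m + 2) i b ∈ H := by
    intro b
    induction b with
    | zero => intro i _; exact H.one_mem
    | succ b ih =>
      intro i hi
      refine H.mul_mem (ih (i + 1) (by omega)) ?_
      rw [S_lt (by omega)]
      exact hp i (by omega)
  have hqm : V.q m ∈ H := by
    have h1 : V.S (m + 2) m = V.rho (m + 2) 0 m * V.ee m * (V.rho (m + 2) 0 m)⁻¹ := by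
      unfold ee; group
    have h2 : V.S (m + 2) m ∈ H := by
      rw [h1]
      exact H.mul_mem (H.mul_mem (hrho m 0 (by omega)) he) (H.inv_mem (hrho m 0 (by omega)))
    rwa [S_ge (by omega)] at h2
  have hxm : V.x m ∈ H := by
    have h1 : V.x m = (V.q m)⁻¹ * (V.p m * V.q (m + 1)) := by
      rw [← V.hx m, inv_mul_cancel_left]
    rw [h1]
    exact H.mul_mem (H.inv_mem hqm) (H.mul_mem (hp m le_rfl) hq)
  have hx : ∀ d j, j + d = m → V.x j ∈ H := by
    intro d
    induction d with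
    | zero => intro j hj; rw [Nat.add_zero] at hj; rw [hj]; exact hxm
    | succ d ih =>
      intro j hj
      have h1 : V.x j = (V.p j)⁻¹ * (V.x (j + 1) * (V.p j * V.p (j + 1))) := by
        rw [← V.gx j, inv_mul_cancel_left]
      rw [h1]
      exact H.mul_mem (H.inv_mem (hp j (by omega))) (H.mul_mem (ih (j + 1) (by omega))
        (H.mul_mem (hp j (by omega)) (hp (j + 1) (by omega))))
  have hqs : ∀ d j, j + d = m → V.q j ∈ H := by
    intro d
    induction d with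
    | zero => intro j hj; rw [Nat.add_zero] at hj; rw [hj]; exact hqm
    | succ d ih =>
      intro j hj
      have h1 : V.q j = V.p j * V.q (j + 1) * (V.x j)⁻¹ := by
        rw [← V.hx j, mul_inv_cancel_right]
      rw [h1]
      exact H.mul_mem (H.mul_mem (hp j (by omega)) (ih (j + 1) (by omega)))
        (H.inv_mem (hx (d + 1) j hj))
  rw [eq_top_iff, ← h, Subgroup.closure_le]
  rintro g hg
  simp only [Set.mem_insert_iff, Set.mem_singleton_iff] at hg
  rcases hg with rfl | rfl | rfl | rfl | rfl | rfl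
  · exact hx m 0 (by omega)
  · exact hx (m - 1) 1 (by omega)
  · exact hp 0 (by omega)
  · exact hp 1 hm
  · exact hqs m 0 (by omega)
  · exact hqs (m - 1) 1 (by omega)

/-- The arithmetic of the growth bound. -/
theorem arith {c : ℝ} (hc : 1 < c) : ∃ m : ℕ, 1 ≤ m ∧
    ((((3 * m + 8).factorial) ^ 3 : ℕ) : ℝ) < c ^ ((m + 2) ^ 2) := by
  -- `m = M ^ 2`
  have hlog : 0 < Real.log c := Real.log_pos hc
  obtain ⟨M, hM⟩ := exists_nat_gt (1000 / Real.log c)
  have hM0 : 0 < 1000 / Real.log c := by positivity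
  have hMpos : (0 : ℝ) < M := hM0.trans hM
  have hM1 : 1 ≤ M := by
    rcases Nat.eq_zero_or_pos M with h | h
    · rw [h] at hMpos; norm_num at hMpos
    · exact h
  have hMr : (1 : ℝ) ≤ M := by exact_mod_cast hM1
  refine ⟨M ^ 2, Nat.one_le_pow _ _ hM1, ?_⟩
  have h1 : ((((3 * M ^ 2 + 8).factorial) ^ 3 : ℕ) : ℝ) ≤
      ((3 * M ^ 2 + 8 : ℕ) : ℝ) ^ ((3 * M ^ 2 + 8) * 3) := by
    have : ((3 * M ^ 2 + 8).factorial) ^ 3 ≤ (3 * M ^ 2 + 8) ^ ((3 * M ^ 2 + 8) * 3) := by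
      rw [pow_mul]
      exact Nat.pow_le_pow_left (Nat.factorial_le_pow _) 3
    exact_mod_cast this
  refine lt_of_le_of_lt h1 ?_
  have hb : (0 : ℝ) < ((3 * M ^ 2 + 8 : ℕ) : ℝ) := by positivity
  rw [← Real.log_lt_log_iff (by positivity) (by positivity), Real.log_pow, Real.log_pow]
  -- `log x ≤ 2 √x`
  have hb2 : ((3 * M ^ 2 + 8 : ℕ) : ℝ) ≤ (4 * M : ℝ) ^ 2 := by
    push_cast
    nlinarith
  have h2 : Real.log ((3 * M ^ 2 + 8 : ℕ) : ℝ) ≤ 2 * (4 * M) := by
    calc Real.log ((3 * M ^ 2 + 8 : ℕ) : ℝ) ≤ Real.log ((4 * M : ℝ) ^ 2) :=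
          Real.log_le_log hb hb2
      _ = 2 * Real.log (4 * M) := by rw [Real.log_pow]; norm_num
      _ ≤ 2 * (4 * M) := by
          have := Real.log_le_self (x := 4 * (M : ℝ)) (by positivity)
          linarith
  have h3 : (((3 * M ^ 2 + 8) * 3 : ℕ) : ℝ) ≤ 33 * (M : ℝ) ^ 2 := by
    push_cast
    nlinarith
  have h4 : (((M ^ 2 + 2) ^ 2 : ℕ) : ℝ) ≥ (M : ℝ) ^ 4 := by
    push_cast
    nlinarith [sq_nonneg (M : ℝ)]
  have h5 : 1000 < M * Real.log c := by
    rwa [div_lt_iff₀ hlog] at hM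
  have h6 : 0 ≤ Real.log ((3 * M ^ 2 + 8 : ℕ) : ℝ) := Real.log_natCast_nonneg _
  calc (((3 * M ^ 2 + 8) * 3 : ℕ) : ℝ) * Real.log ((3 * M ^ 2 + 8 : ℕ) : ℝ)
      ≤ 33 * (M : ℝ) ^ 2 * (2 * (4 * M)) :=
        mul_le_mul h3 h2 h6 (by positivity)
    _ = 264 * (M : ℝ) ^ 3 := by ring
    _ < (M : ℝ) ^ 3 * 1000 := by nlinarith [pow_pos hMpos 3]
    _ < (M : ℝ) ^ 3 * (M * Real.log c) := mul_lt_mul_of_pos_left h5 (pow_pos hMpos 3)
    _ = (M : ℝ) ^ 4 * Real.log c := by ring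
    _ ≤ (((M ^ 2 + 2) ^ 2 : ℕ) : ℝ) * Real.log c := mul_le_mul_of_nonneg_right h4 hlog.le

/-- **Slow generating sets.** -/
theorem slow (V : VSys Γ)
    (h : Subgroup.closure ({V.x 0, V.x 1, V.p 0, V.p 1, V.q 0, V.q 1} : Set Γ) = ⊤)
    {c : ℝ} (hc : 1 < c) : ∃ (S : Finset Γ), Subgroup.closure (S : Set Γ) = ⊤ ∧
      ∃ k : ℕ, (Set.ncard {g : Γ | ∃ l : List Γ, l.length ≤ k ∧
        (∀ x ∈ l, x ∈ S ∨ x⁻¹ ∈ S) ∧ l.prod = g} : ℝ) < c ^ k := by
  obtain ⟨m, hm, hlt⟩ := arith hc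
  refine ⟨V.gensF m, closure_gensF hm h, (m + 2) ^ 2, ?_⟩
  refine lt_of_le_of_lt ?_ hlt
  have h1 := ball_subset (V := V) m (V.gensF m : Set Γ) (gensF_sub m)
  obtain ⟨h2, h3⟩ := E_fin (V := V) (3 * m + 7)
  exact_mod_cast (Set.ncard_le_ncard h1 h2).trans h3

end VSys

end Pool.Agent.K6.H89.VU
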