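import Pool.Agent.K6.H89.VU.Sys

/-! A finite presentation of Thompson's group `V`. -/

set_option autoImplicit false

namespace Pool.Agent.K6.H89.VU

section sequences

variable {G : Type} [Group G]

/-- the sequence `z0, z1, a⁻¹ z1 a, a⁻² z1 a², …` -/
def sq (a z0 z1 : G) : ℕ → G
  | 0 => z0
  | j + 1 => (a ^ j)⁻¹ * z1 * a ^ j

/-- conjugation by `a ^ n` -/
def cj (a : G) (n : ℕ) : G →* G := (MulAut.conj ((a ^ n)⁻¹)).toMonoidHom

theorem cj_apply (a : G) (n : ℕ) (g : G) : cj a n g = (a ^ n)⁻¹ * g * a ^ n := by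
  show (a ^ n)⁻¹ * g * ((a ^ n)⁻¹)⁻¹ = _
  rw [inv_inv]

theorem cj_sq (a z0 z1 : G) (n j : ℕ) : cj a n (sq a z0 z1 (j + 1)) = sq a z0 z1 (j + n + 1) := by
  rw [cj_apply]
  show (a ^ n)⁻¹ * ((a ^ j)⁻¹ * z1 * a ^ j) * a ^ n = (a ^ (j + n))⁻¹ * z1 * a ^ (j + n)
  rw [pow_add, mul_inv_rev]
  simp only [mul_assoc]

theorem sq_step (a z0 z1 : G) (j : ℕ) :
    sq a z0 z1 (j + 1) * a = a * sq a z0 z1 (j + 2) := by
  show (a ^ j)⁻¹ * z1 * a ^ j * a = a * ((a ^ (j + 1))⁻¹ * z1 * a ^ (j + 1))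
  rw [pow_succ]
  rw [mul_inv_rev]
  have : (a ^ j)⁻¹ = a * (a⁻¹ * (a ^ j)⁻¹) := by rw [mul_inv_cancel_left]
  calc (a ^ j)⁻¹ * z1 * a ^ j * a = a * (a⁻¹ * (a ^ j)⁻¹) * z1 * a ^ j * a := by
        rw [mul_inv_cancel_left]
    _ = _ := by simp only [mul_assoc]

end sequences

/-- The defining relations (as pairs of equal elements) in terms of six elements. -/
def R {G : Type} [Group G] (g : Fin 6 → G) : List (G × G) :=
  let a := g 0
  let x := sq a (g 0) (g 1)
  let p := sq a (g 2) (g 3)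
  let q := sq a (g 4) (g 5)
  [(x 2 * x 1, x 1 * x 3), (x 3 * x 1, x 1 * x 4),
   (p 2 * x 1, x 1 * p 3), (p 3 * x 1, x 1 * p 4),
   (q 2 * x 1, x 1 * q 3), (q 3 * x 1, x 1 * q 4),
   (p 0 * p 0, 1), (p 1 * p 1, 1), (q 0 * q 0, 1), (q 1 * q 1, 1),
   (p 0 * x 2, x 2 * p 0), (p 0 * x 3, x 3 * p 0), (p 1 * x 3, x 3 * p 1), (p 1 * x 4, x 4 * p 1),
   (p 0 * p 2, p 2 * p 0), (p 0 * p 3, p 3 * p 0), (p 1 * p 3, p 3 * p 1), (p 1 * p 4, p 4 * p 1),
   (p 0 * q 2, q 2 * p 0), (p 0 * q 3, q 3 * p 0), (p 1 * q 3, q 3 * p 1), (p 1 * q 4, q 4 * p 1),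
   (p 0 * p 1 * p 0, p 1 * p 0 * p 1), (p 1 * p 2 * p 1, p 2 * p 1 * p 2),
   (p 0 * q 1 * p 0, q 1 * p 0 * q 1), (p 1 * q 2 * p 1, q 2 * p 1 * q 2),
   (p 0 * x 0, x 1 * (p 0 * p 1)), (p 1 * x 1, x 2 * (p 1 * p 2)),
   (q 0 * x 0, p 0 * q 1), (q 1 * x 1, p 1 * q 2)]

/-- the relations hold -/
def Sat {G : Type} [Group G] (g : Fin 6 → G) : Prop := ∀ r ∈ R g, r.1 = r.2

theorem sq_map {G H : Type} [Group G] [Group H] (f : G →* H) (a z0 z1 : G) (j : ℕ) :
    f (sq a z0 z1 j) = sq (f a) (f z0) (f z1) j := by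
  cases j with
  | zero => rfl
  | succ j =>
    show f ((a ^ j)⁻¹ * z1 * a ^ j) = ((f a) ^ j)⁻¹ * f z1 * (f a) ^ j
    rw [map_mul, map_mul, map_inv, map_pow]

theorem R_map {G H : Type} [Group G] [Group H] (f : G →* H) (g : Fin 6 → G) :
    (R g).map (fun r => (f r.1, f r.2)) = R (fun i => f (g i)) := by
  simp only [R, List.map_cons, List.map_nil, map_mul, map_one, sq_map]

section derive

variable {G : Type} [Group G] {g : Fin 6 → G}

/-- The relations `y j * x 1 = x 1 * y (j + 1)`, `j ≥ 2`. -/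
theorem fam1 {a x1 y0 y1 : G} (h2 : sq a a x1 2 * sq a a x1 1 = sq a a x1 1 * sq a a x1 3)
    (hy2 : sq a y0 y1 2 * sq a a x1 1 = sq a a x1 1 * sq a y0 y1 3)
    (hy3 : sq a y0 y1 3 * sq a a x1 1 = sq a a x1 1 * sq a y0 y1 4) :
    ∀ j, sq a y0 y1 (j + 2) * sq a a x1 1 = sq a a x1 1 * sq a y0 y1 (j + 3) := by
  intro j
  induction j using Nat.strong_induction_on with
  | _ j ih =>
    rcases j with _ | _ | j
    · exact hy2
    · exact hy3
    · have i1 := ih j (by omega)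
      have i2 := ih (j + 1) (by omega)
      -- shifted copies
      have s1 := congrArg (cj a 1) i1
      rw [map_mul, map_mul, show (1 : ℕ) = 0 + 1 by rfl, cj_sq, cj_sq, cj_sq] at s1
      have s2 := congrArg (cj a 2) i1
      rw [map_mul, map_mul, show (1 : ℕ) = 0 + 1 by rfl, cj_sq, cj_sq, cj_sq] at s2
      have s1' : sq a y0 y1 (j + 3) * sq a a x1 2 = sq a a x1 2 * sq a y0 y1 (j + 4) := s1
      have s2' : sq a y0 y1 (j + 4) * sq a a x1 3 = sq a a x1 3 * sq a y0 y1 (j + 5) := s2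
      have i2' : sq a y0 y1 (j + 3) * sq a a x1 1 = sq a a x1 1 * sq a y0 y1 (j + 4) := i2
      show sq a y0 y1 (j + 4) * sq a a x1 1 = sq a a x1 1 * sq a y0 y1 (j + 5)
      generalize sq a a x1 1 = X1 at *
      generalize sq a a x1 2 = X2 at *
      generalize sq a a x1 3 = X3 at *
      generalize sq a y0 y1 (j + 3) = Y3 at *
      generalize sq a y0 y1 (j + 4) = Y4 at *
      generalize sq a y0 y1 (j + 5) = Y5 at *
      have e1 : Y4 = X2⁻¹ * (Y3 * X2) := by rw [s1', inv_mul_cancel_left]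
      have e2 : Y5 = X3⁻¹ * (Y4 * X3) := by rw [s2', inv_mul_cancel_left]
      have e3 : X2⁻¹ * X1 = X1 * X3⁻¹ := by
        rw [inv_mul_eq_iff_eq_mul, ← mul_assoc, h2, mul_assoc, mul_inv_cancel, mul_one]
      calc Y4 * X1 = X2⁻¹ * (Y3 * (X2 * X1)) := by
            conv_lhs => rw [e1]
            simp only [mul_assoc]
        _ = X2⁻¹ * (Y3 * X1) * X3 := by rw [h2]; simp only [mul_assoc]
        _ = (X2⁻¹ * X1) * (Y4 * X3) := by rw [i2']; simp only [mul_assoc]
        _ = X1 * Y5 := by rw [e3, e2]; simp only [mul_assoc]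

/-- All relations of the first kind. -/
theorem famA {a x1 y0 y1 : G}
    (h : ∀ j, sq a y0 y1 (j + 2) * sq a a x1 1 = sq a a x1 1 * sq a y0 y1 (j + 3)) :
    ∀ i j, i < j → sq a y0 y1 j * sq a a x1 i = sq a a x1 i * sq a y0 y1 (j + 1) := by
  intro i j hij
  rcases i with _ | i
  · obtain ⟨j, rfl⟩ : ∃ j', j = j' + 1 := ⟨j - 1, by omega⟩
    exact sq_step a y0 y1 j
  · obtain ⟨d, rfl⟩ : ∃ d, j = d + 2 + i := ⟨j - i - 2, by omega⟩
    have h1 := congrArg (cj a i) (h d)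
    have e1 : cj a i (sq a y0 y1 (d + 2)) = sq a y0 y1 (d + 2 + i) := by
      rw [show d + 2 = (d + 1) + 1 by rfl, cj_sq]; congr 1; omega
    have e2 : cj a i (sq a y0 y1 (d + 3)) = sq a y0 y1 (d + 2 + i + 1) := by
      rw [show d + 3 = (d + 2) + 1 by rfl, cj_sq]
    have e3 : cj a i (sq a a x1 1) = sq a a x1 (i + 1) := by
      rw [show (1 : ℕ) = 0 + 1 by rfl, cj_sq, Nat.zero_add]
    rw [map_mul, map_mul, e1, e2, e3] at h1
    exact h1

/-- Commutation relations. -/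
theorem famF {a x1 p0 p1 y0 y1 : G}
    (hA : ∀ i j, i < j → sq a y0 y1 j * sq a a x1 i = sq a a x1 i * sq a y0 y1 (j + 1))
    (h02 : sq a p0 p1 0 * sq a y0 y1 2 = sq a y0 y1 2 * sq a p0 p1 0)
    (h03 : sq a p0 p1 0 * sq a y0 y1 3 = sq a y0 y1 3 * sq a p0 p1 0)
    (h13 : sq a p0 p1 1 * sq a y0 y1 3 = sq a y0 y1 3 * sq a p0 p1 1)
    (h14 : sq a p0 p1 1 * sq a y0 y1 4 = sq a y0 y1 4 * sq a p0 p1 1)
    (hx2 : sq a p0 p1 0 * sq a a x1 2 = sq a a x1 2 * sq a p0 p1 0)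
    (hx3 : sq a p0 p1 1 * sq a a x1 3 = sq a a x1 3 * sq a p0 p1 1) :
    ∀ i j, i + 2 ≤ j → sq a p0 p1 i * sq a y0 y1 j = sq a y0 y1 j * sq a p0 p1 i := by
  have g0 : ∀ d, sq a p0 p1 0 * sq a y0 y1 (d + 2) = sq a y0 y1 (d + 2) * sq a p0 p1 0 := by
    intro d
    induction d with
    | zero => exact h02
    | succ d ih =>
      rcases d with _ | d
      · exact h03
      · have h1 := hA 2 (d + 1 + 2) (by omega)
        have e : sq a y0 y1 (d + 1 + 2 + 1) =
            (sq a a x1 2)⁻¹ * (sq a y0 y1 (d + 1 + 2) * sq a a x1 2) := by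
          rw [h1, inv_mul_cancel_left]
        show sq a p0 p1 0 * sq a y0 y1 (d + 1 + 2 + 1) = sq a y0 y1 (d + 1 + 2 + 1) * _
        rw [e]
        have c1 : Commute (sq a p0 p1 0) (sq a a x1 2) := hx2
        have c2 : Commute (sq a p0 p1 0) (sq a y0 y1 (d + 1 + 2)) := ih
        exact (c1.inv_right.mul_right (c2.mul_right c1))
  have g1 : ∀ d, sq a p0 p1 1 * sq a y0 y1 (d + 3) = sq a y0 y1 (d + 3) * sq a p0 p1 1 := by
    intro d
    induction d with
    | zero => exact h13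
    | succ d ih =>
      rcases d with _ | d
      · exact h14
      · have h1 := hA 3 (d + 1 + 3) (by omega)
        have e : sq a y0 y1 (d + 1 + 3 + 1) =
            (sq a a x1 3)⁻¹ * (sq a y0 y1 (d + 1 + 3) * sq a a x1 3) := by
          rw [h1, inv_mul_cancel_left]
        show sq a p0 p1 1 * sq a y0 y1 (d + 1 + 3 + 1) = sq a y0 y1 (d + 1 + 3 + 1) * _
        rw [e]
        have c1 : Commute (sq a p0 p1 1) (sq a a x1 3) := hx3
        have c2 : Commute (sq a p0 p1 1) (sq a y0 y1 (d + 1 + 3)) := ih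
        exact (c1.inv_right.mul_right (c2.mul_right c1))
  intro i j hij
  rcases i with _ | i
  · obtain ⟨d, rfl⟩ : ∃ d, j = d + 2 := ⟨j - 2, by omega⟩
    exact g0 d
  · obtain ⟨d, rfl⟩ : ∃ d, j = d + 3 + i := ⟨j - i - 3, by omega⟩
    have h1 := congrArg (cj a i) (g1 d)
    have e1 : cj a i (sq a y0 y1 (d + 3)) = sq a y0 y1 (d + 3 + i) := by
      rw [show d + 3 = (d + 2) + 1 by rfl, cj_sq]; congr 1; omega
    have e3 : cj a i (sq a p0 p1 1) = sq a p0 p1 (i + 1) := by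
      rw [show (1 : ℕ) = 0 + 1 by rfl, cj_sq, Nat.zero_add]
    rw [map_mul, map_mul, e1, e3] at h1
    exact h1

/-- Elements which satisfy the finitely many relations give a system. -/
theorem Sat.exists_sys (h : Sat g) : ∃ S : VSys G, S.x = sq (g 0) (g 0) (g 1) ∧
    S.p = sq (g 0) (g 2) (g 3) ∧ S.q = sq (g 0) (g 4) (g 5) := by
  have hr : ∀ r ∈ R g, r.1 = r.2 := h
  unfold R at hr
  simp only [List.mem_cons, List.not_mem_nil, or_false, forall_eq_or_imp, forall_eq] at hr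
  obtain ⟨x2, x3, px2, px3, qx2, qx3, pp0, pp1, qq0, qq1, f02, f03, f13, f14, c02, c03, c13, c14,
    d02, d03, d13, d14, b0, b1, b0', b1', g0, g1, h0, h1⟩ := hr
  have fx := famA (fam1 x2 x2 x3)
  have fp := famA (fam1 x2 px2 px3)
  have fq := famA (fam1 x2 qx2 qx3)
  refine ⟨
    { x := sq (g 0) (g 0) (g 1)
      p := sq (g 0) (g 2) (g 3)
      q := sq (g 0) (g 4) (g 5)
      xx := fx
      pp := ?_
      qq := ?_
      cp := famF fp c02 c03 c13 c14 f02 f13
      cq := famF fq d02 d03 d13 d14 f02 f13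
      bp := ?_
      bq := ?_
      px := fp
      qx := fq
      fx := famF fx f02 f03 f13 f14 f02 f13
      gx := ?_
      hx := ?_ }, rfl, rfl, rfl⟩
  · intro i
    rcases i with _ | i
    · exact pp0
    · have := congrArg (cj (g 0) i) pp1
      rw [map_mul, map_one, show (1 : ℕ) = 0 + 1 by rfl, cj_sq, Nat.zero_add] at this
      exact this
  · intro i
    rcases i with _ | i
    · exact qq0
    · have := congrArg (cj (g 0) i) qq1
      rw [map_mul, map_one, show (1 : ℕ) = 0 + 1 by rfl, cj_sq, Nat.zero_add] at this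
      exact this
  · intro i
    rcases i with _ | i
    · exact b0
    · have := congrArg (cj (g 0) i) b1
      simp only [map_mul] at this
      rw [show (2 : ℕ) = 1 + 1 by rfl, cj_sq, show (1 : ℕ) = 0 + 1 by rfl, cj_sq, Nat.zero_add,
        Nat.zero_add, Nat.add_comm 1 i] at this
      exact this
  · intro i
    rcases i with _ | i
    · exact b0'
    · have := congrArg (cj (g 0) i) b1'
      simp only [map_mul] at this
      rw [show (2 : ℕ) = 1 + 1 by rfl, cj_sq, show (1 : ℕ) = 0 + 1 by rfl, cj_sq, Nat.zero_add,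
        Nat.zero_add, Nat.add_comm 1 i] at this
      exact this
  · intro i
    rcases i with _ | i
    · exact g0
    · have := congrArg (cj (g 0) i) g1
      simp only [map_mul] at this
      rw [show (2 : ℕ) = 1 + 1 by rfl, cj_sq, cj_sq, show (1 : ℕ) = 0 + 1 by rfl, cj_sq, cj_sq,
        Nat.zero_add, Nat.zero_add, Nat.add_comm 1 i] at this
      exact this
  · intro i
    rcases i with _ | i
    · exact h0
    · have := congrArg (cj (g 0) i) h1
      simp only [map_mul] at this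
      rw [show (2 : ℕ) = 1 + 1 by rfl, cj_sq, show (1 : ℕ) = 0 + 1 by rfl, cj_sq, cj_sq, cj_sq,
        Nat.zero_add, Nat.zero_add, Nat.add_comm 1 i] at this
      exact this

/-- Elements which satisfy the finitely many relations give a system. -/
noncomputable def Sat.sys (h : Sat g) : VSys G := Classical.choose h.exists_sys

theorem Sat.sys_x (h : Sat g) : h.sys.x = sq (g 0) (g 0) (g 1) :=
  (Classical.choose_spec h.exists_sys).1

theorem Sat.sys_p (h : Sat g) : h.sys.p = sq (g 0) (g 2) (g 3) :=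
  (Classical.choose_spec h.exists_sys).2.1

theorem Sat.sys_q (h : Sat g) : h.sys.q = sq (g 0) (g 4) (g 5) :=
  (Classical.choose_spec h.exists_sys).2.2

end derive

end Pool.Agent.K6.H89.VU
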