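import Pool.Agent.K6.H89.VU.Gen
import Pool.Agent.K6.H89.VU.Pres

/-! The action of Thompson's group `V` on the natural numbers, and exponential growth. -/

set_option autoImplicit false

namespace Pool.Agent.K6.H89.VU

section model

/-- a bijection between two copies of the natural numbers and the natural numbers -/
def ev : ℕ ⊕ ℕ ≃ ℕ := Equiv.natSumNatEquivNat

/-- the left half -/
def lf (n : ℕ) : ℕ := ev (.inl n)

/-- the right half -/
def rg (n : ℕ) : ℕ := ev (.inr n)

theorem lf_or_rg (n : ℕ) : (∃ m, n = lf m) ∨ ∃ m, n = rg m := by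
  rcases h : ev.symm n with m | m
  · exact Or.inl ⟨m, by rw [lf, ← h, Equiv.apply_symm_apply]⟩
  · exact Or.inr ⟨m, by rw [rg, ← h, Equiv.apply_symm_apply]⟩

theorem lf_inj {m n : ℕ} (h : lf m = lf n) : m = n := Sum.inl_injective (ev.injective h)
theorem rg_inj {m n : ℕ} (h : rg m = rg n) : m = n := Sum.inr_injective (ev.injective h)
theorem lf_ne_rg (m n : ℕ) : lf m ≠ rg n := by
  intro h
  have := ev.injective h
  simp at this

/-- the action on the right half -/
def RR (g : Equiv.Perm ℕ) : Equiv.Perm ℕ :=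
  ev.symm.trans ((Equiv.sumCongr (Equiv.refl ℕ) g).trans ev)

/-- splitting of the first leaf -/
def x0 : Equiv.Perm ℕ :=
  ev.symm.trans ((Equiv.sumCongr (Equiv.refl ℕ) ev.symm).trans
    ((Equiv.sumAssoc ℕ ℕ ℕ).symm.trans ((Equiv.sumCongr ev (Equiv.refl ℕ)).trans ev)))

/-- exchange of the halves -/
def q0 : Equiv.Perm ℕ := ev.symm.trans ((Equiv.sumComm ℕ ℕ).trans ev)

/-- exchange of the leaves `0` and `10` -/
def p0 : Equiv.Perm ℕ :=
  ev.symm.trans ((Equiv.sumCongr (Equiv.refl ℕ) ev.symm).trans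
    ((Equiv.sumAssoc ℕ ℕ ℕ).symm.trans ((Equiv.sumCongr (Equiv.sumComm ℕ ℕ) (Equiv.refl ℕ)).trans
      ((Equiv.sumAssoc ℕ ℕ ℕ).trans ((Equiv.sumCongr (Equiv.refl ℕ) ev).trans ev)))))

@[simp] theorem RR_lf (g : Equiv.Perm ℕ) (n : ℕ) : RR g (lf n) = lf n := by
  simp [RR, lf]

@[simp] theorem RR_rg (g : Equiv.Perm ℕ) (n : ℕ) : RR g (rg n) = rg (g n) := by
  simp [RR, rg]

@[simp] theorem x0_lf (n : ℕ) : x0 (lf n) = lf (lf n) := by simp [x0, lf]
@[simp] theorem x0_rl (n : ℕ) : x0 (rg (lf n)) = lf (rg n) := by simp [x0, lf, rg]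
@[simp] theorem x0_rr (n : ℕ) : x0 (rg (rg n)) = rg n := by simp [x0, rg]
@[simp] theorem q0_lf (n : ℕ) : q0 (lf n) = rg n := by simp [q0, lf, rg]
@[simp] theorem q0_rg (n : ℕ) : q0 (rg n) = lf n := by simp [q0, lf, rg]
@[simp] theorem p0_lf (n : ℕ) : p0 (lf n) = rg (lf n) := by simp [p0, lf, rg]
@[simp] theorem p0_rl (n : ℕ) : p0 (rg (lf n)) = lf n := by simp [p0, lf, rg]
@[simp] theorem p0_rr (n : ℕ) : p0 (rg (rg n)) = rg (rg n) := by simp [p0, rg]

theorem RR_mul (g h : Equiv.Perm ℕ) : RR (g * h) = RR g * RR h := by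
  ext n
  rcases lf_or_rg n with ⟨m, rfl⟩ | ⟨m, rfl⟩ <;> simp [Equiv.Perm.mul_apply]

theorem RR_one : RR 1 = 1 := by
  ext n
  rcases lf_or_rg n with ⟨m, rfl⟩ | ⟨m, rfl⟩ <;> simp

theorem ext3 {f g : Equiv.Perm ℕ} (h0 : ∀ n, f (lf n) = g (lf n))
    (h1 : ∀ n, f (rg (lf n)) = g (rg (lf n))) (h2 : ∀ n, f (rg (rg n)) = g (rg (rg n))) :
    f = g := by
  ext n
  rcases lf_or_rg n with ⟨m, rfl⟩ | ⟨m, rfl⟩
  · exact h0 m
  · rcases lf_or_rg m with ⟨l, rfl⟩ | ⟨l, rfl⟩
    · exact h1 l
    · exact h2 l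

theorem ext4 {f g : Equiv.Perm ℕ} (h0 : ∀ n, f (lf n) = g (lf n))
    (h1 : ∀ n, f (rg (lf n)) = g (rg (lf n)))
    (h2 : ∀ n, f (rg (rg (lf n))) = g (rg (rg (lf n))))
    (h3 : ∀ n, f (rg (rg (rg n))) = g (rg (rg (rg n)))) : f = g := by
  refine ext3 h0 h1 ?_
  intro n
  rcases lf_or_rg n with ⟨m, rfl⟩ | ⟨m, rfl⟩
  · exact h2 m
  · exact h3 m

theorem RR_x0 (g : Equiv.Perm ℕ) : RR g * x0 = x0 * RR (RR g) := by
  refine ext3 ?_ ?_ ?_ <;> intro n <;> simp [Equiv.Perm.mul_apply]

theorem RR_p0 (g : Equiv.Perm ℕ) : p0 * RR (RR g) = RR (RR g) * p0 := by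
  refine ext3 ?_ ?_ ?_ <;> intro n <;> simp [Equiv.Perm.mul_apply]

theorem p0_p0 : p0 * p0 = 1 := by
  refine ext3 ?_ ?_ ?_ <;> intro n <;> simp [Equiv.Perm.mul_apply]

theorem q0_q0 : q0 * q0 = 1 := by
  refine ext3 ?_ ?_ ?_ <;> intro n <;> simp [Equiv.Perm.mul_apply]

theorem bp0 : p0 * RR p0 * p0 = RR p0 * p0 * RR p0 := by
  refine ext4 ?_ ?_ ?_ ?_ <;> intro n <;> simp [Equiv.Perm.mul_apply]

theorem bq0 : p0 * RR q0 * p0 = RR q0 * p0 * RR q0 := by
  refine ext4 ?_ ?_ ?_ ?_ <;> intro n <;> simp [Equiv.Perm.mul_apply]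

theorem gx0 : p0 * x0 = RR x0 * (p0 * RR p0) := by
  refine ext4 ?_ ?_ ?_ ?_ <;> intro n <;> simp [Equiv.Perm.mul_apply]

theorem hx0 : q0 * x0 = p0 * RR q0 := by
  refine ext4 ?_ ?_ ?_ ?_ <;> intro n <;> simp [Equiv.Perm.mul_apply]

/-- iterated right halves -/
def RI (g : Equiv.Perm ℕ) : ℕ → Equiv.Perm ℕ
  | 0 => g
  | j + 1 => RR (RI g j)

/-- Thompson's group acts on the natural numbers. -/
def model : VSys (Equiv.Perm ℕ) where
  x := RI x0
  p := RI p0
  q := RI q0
  xx := by
    intro i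
    induction i with
    | zero =>
      intro j hj
      obtain ⟨j, rfl⟩ : ∃ j', j = j' + 1 := ⟨j - 1, by omega⟩
      exact RR_x0 _
    | succ i ih =>
      intro j hj
      obtain ⟨j, rfl⟩ : ∃ j', j = j' + 1 := ⟨j - 1, by omega⟩
      have := congrArg RR (ih j (by omega))
      rw [RR_mul, RR_mul] at this
      exact this
  pp := by
    intro i
    induction i with
    | zero => exact p0_p0
    | succ i ih => have := congrArg RR ih; rw [RR_mul, RR_one] at this; exact this
  qq := by
    intro i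
    induction i with
    | zero => exact q0_q0
    | succ i ih => have := congrArg RR ih; rw [RR_mul, RR_one] at this; exact this
  cp := by
    intro i
    induction i with
    | zero =>
      intro j hj
      obtain ⟨j, rfl⟩ : ∃ j', j = j' + 2 := ⟨j - 2, by omega⟩
      exact RR_p0 _
    | succ i ih =>
      intro j hj
      obtain ⟨j, rfl⟩ : ∃ j', j = j' + 1 := ⟨j - 1, by omega⟩
      have := congrArg RR (ih j (by omega))
      rw [RR_mul, RR_mul] at this
      exact this
  cq := by
    intro i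
    induction i with
    | zero =>
      intro j hj
      obtain ⟨j, rfl⟩ : ∃ j', j = j' + 2 := ⟨j - 2, by omega⟩
      exact RR_p0 _
    | succ i ih =>
      intro j hj
      obtain ⟨j, rfl⟩ : ∃ j', j = j' + 1 := ⟨j - 1, by omega⟩
      have := congrArg RR (ih j (by omega))
      rw [RR_mul, RR_mul] at this
      exact this
  bp := by
    intro i
    induction i with
    | zero => exact bp0
    | succ i ih => have := congrArg RR ih; simp only [RR_mul] at this; exact this
  bq := by
    intro i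
    induction i with
    | zero => exact bq0
    | succ i ih => have := congrArg RR ih; simp only [RR_mul] at this; exact this
  px := by
    intro i
    induction i with
    | zero =>
      intro j hj
      obtain ⟨j, rfl⟩ : ∃ j', j = j' + 1 := ⟨j - 1, by omega⟩
      exact RR_x0 _
    | succ i ih =>
      intro j hj
      obtain ⟨j, rfl⟩ : ∃ j', j = j' + 1 := ⟨j - 1, by omega⟩
      have := congrArg RR (ih j (by omega))
      rw [RR_mul, RR_mul] at this
      exact this
  qx := by
    intro i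
    induction i with
    | zero =>
      intro j hj
      obtain ⟨j, rfl⟩ : ∃ j', j = j' + 1 := ⟨j - 1, by omega⟩
      exact RR_x0 _
    | succ i ih =>
      intro j hj
      obtain ⟨j, rfl⟩ : ∃ j', j = j' + 1 := ⟨j - 1, by omega⟩
      have := congrArg RR (ih j (by omega))
      rw [RR_mul, RR_mul] at this
      exact this
  fx := by
    intro i
    induction i with
    | zero =>
      intro j hj
      obtain ⟨j, rfl⟩ : ∃ j', j = j' + 2 := ⟨j - 2, by omega⟩
      exact RR_p0 _
    | succ i ih =>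
      intro j hj
      obtain ⟨j, rfl⟩ : ∃ j', j = j' + 1 := ⟨j - 1, by omega⟩
      have := congrArg RR (ih j (by omega))
      rw [RR_mul, RR_mul] at this
      exact this
  gx := by
    intro i
    induction i with
    | zero => exact gx0
    | succ i ih => have := congrArg RR ih; simp only [RR_mul] at this; exact this
  hx := by
    intro i
    induction i with
    | zero => exact hx0
    | succ i ih => have := congrArg RR ih; simp only [RR_mul] at this; exact this

end model

/-! ### Every system satisfies the finitely many relations -/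

theorem VSys.sq_eq {G : Type} [Group G] (V : VSys G) (y : ℕ → G)
    (hy : ∀ j, 0 < j → y j * V.x 0 = V.x 0 * y (j + 1)) (j : ℕ) :
    sq (V.x 0) (y 0) (y 1) j = y j := by
  cases j with
  | zero => rfl
  | succ j =>
    show (V.x 0 ^ j)⁻¹ * y 1 * V.x 0 ^ j = y (j + 1)
    induction j with
    | zero => rw [pow_zero, inv_one, one_mul, mul_one]
    | succ j ih =>
      have h := hy (j + 1) (by omega)
      rw [← ih] at h
      have h2 : y (j + 1 + 1) = (V.x 0)⁻¹ * ((V.x 0 ^ j)⁻¹ * y 1 * V.x 0 ^ j * V.x 0) := by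
        rw [h, inv_mul_cancel_left]
      rw [h2, pow_succ, mul_inv_rev]
      simp only [mul_assoc]

/-- the six generators of a system -/
def VSys.six {G : Type} [Group G] (V : VSys G) : Fin 6 → G :=
  ![V.x 0, V.x 1, V.p 0, V.p 1, V.q 0, V.q 1]

theorem VSys.sat {G : Type} [Group G] (V : VSys G) : Sat V.six := by
  have ex : ∀ j, sq (V.x 0) (V.x 0) (V.x 1) j = V.x j :=
    V.sq_eq V.x fun j hj => V.xx 0 j hj
  have ep : ∀ j, sq (V.x 0) (V.p 0) (V.p 1) j = V.p j :=
    V.sq_eq V.p fun j hj => V.px 0 j hj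
  have eq : ∀ j, sq (V.x 0) (V.q 0) (V.q 1) j = V.q j :=
    V.sq_eq V.q fun j hj => V.qx 0 j hj
  intro r hr
  unfold R at hr
  simp only [show V.six 0 = V.x 0 from rfl, show V.six 1 = V.x 1 from rfl,
    show V.six 2 = V.p 0 from rfl, show V.six 3 = V.p 1 from rfl,
    show V.six 4 = V.q 0 from rfl, show V.six 5 = V.q 1 from rfl, ex, ep, eq,
    List.mem_cons, List.not_mem_nil, or_false] at hr
  rcases hr with rfl | rfl | rfl | rfl | rfl | rfl | rfl | rfl | rfl | rfl | rfl | rfl | rfl | rfl |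
    rfl | rfl | rfl | rfl | rfl | rfl | rfl | rfl | rfl | rfl | rfl | rfl | rfl | rfl | rfl | rfl
  · exact V.xx 1 2 (by omega)
  · exact V.xx 1 3 (by omega)
  · exact V.px 1 2 (by omega)
  · exact V.px 1 3 (by omega)
  · exact V.qx 1 2 (by omega)
  · exact V.qx 1 3 (by omega)
  · exact V.pp 0
  · exact V.pp 1
  · exact V.qq 0
  · exact V.qq 1
  · exact V.fx 0 2 (by omega)
  · exact V.fx 0 3 (by omega)
  · exact V.fx 1 3 (by omega)
  · exact V.fx 1 4 (by omega)
  · exact V.cp 0 2 (by omega)
  · exact V.cp 0 3 (by omega)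
  · exact V.cp 1 3 (by omega)
  · exact V.cp 1 4 (by omega)
  · exact V.cq 0 2 (by omega)
  · exact V.cq 0 3 (by omega)
  · exact V.cq 1 3 (by omega)
  · exact V.cq 1 4 (by omega)
  · exact V.bp 0
  · exact V.bp 1
  · exact V.bq 0
  · exact V.bq 1
  · exact V.gx 0
  · exact V.gx 1
  · exact V.hx 0
  · exact V.hx 1

/-! ### The finitely presented group -/

open Classical in
/-- the relators -/
noncomputable def rels : Finset (FreeGroup (Fin 6)) :=
  ((R (FreeGroup.of : Fin 6 → FreeGroup (Fin 6))).map fun r => r.1 * r.2⁻¹).toFinset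

/-- Thompson's group `V`, given by a finite presentation -/
abbrev TV : Type := PresentedGroup (rels : Set (FreeGroup (Fin 6)))

theorem sat_of : Sat (fun i => (PresentedGroup.of i : TV)) := by
  classical
  intro r hr
  have h := R_map (PresentedGroup.mk (rels : Set (FreeGroup (Fin 6))))
    (FreeGroup.of : Fin 6 → FreeGroup (Fin 6))
  have hr' : r ∈ (R (FreeGroup.of : Fin 6 → FreeGroup (Fin 6))).map
      (fun r => (PresentedGroup.mk (rels : Set (FreeGroup (Fin 6))) r.1,
        PresentedGroup.mk (rels : Set (FreeGroup (Fin 6))) r.2)) := by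
    rw [h]; exact hr
  rw [List.mem_map] at hr'
  obtain ⟨s, hs, rfl⟩ := hr'
  have h1 : s.1 * s.2⁻¹ ∈ (rels : Set (FreeGroup (Fin 6))) := by
    unfold rels
    rw [List.coe_toFinset, Set.mem_ofPred_eq, List.mem_map]
    exact ⟨s, hs, rfl⟩
  have h2 : PresentedGroup.mk (rels : Set (FreeGroup (Fin 6))) (s.1 * s.2⁻¹) = 1 :=
    PresentedGroup.mk_eq_one_iff.2 (Subgroup.subset_normalClosure h1)
  rw [map_mul, map_inv, mul_inv_eq_one] at h2
  exact h2

/-- the system in the finitely presented group -/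
noncomputable def tv : VSys TV := sat_of.sys

theorem lift_sat {H : Type} [Group H] {g : Fin 6 → H} (h : Sat g) :
    ∀ r ∈ (rels : Set (FreeGroup (Fin 6))), FreeGroup.lift g r = 1 := by
  classical
  intro r hr
  unfold rels at hr
  rw [List.coe_toFinset, Set.mem_ofPred_eq, List.mem_map] at hr
  obtain ⟨s, hs, rfl⟩ := hr
  have h1 := R_map (FreeGroup.lift g) (FreeGroup.of : Fin 6 → FreeGroup (Fin 6))
  have h2 : (fun i => FreeGroup.lift g (FreeGroup.of i)) = g := by
    funext i; exact FreeGroup.lift_apply_of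
  rw [h2] at h1
  have h3 : (FreeGroup.lift g s.1, FreeGroup.lift g s.2) ∈ R g := by
    rw [← h1, List.mem_map]; exact ⟨s, hs, rfl⟩
  rw [map_mul, map_inv, mul_inv_eq_one]
  exact h _ h3

/-- the homomorphism to a group with a system -/
noncomputable def toModel : TV →* Equiv.Perm ℕ := PresentedGroup.toGroup (lift_sat model.sat)

theorem toModel_of (i : Fin 6) : toModel (PresentedGroup.of i) = model.six i :=
  PresentedGroup.toGroup.of _

theorem tv_x : tv.x = sq (PresentedGroup.of 0 : TV) (PresentedGroup.of 0) (PresentedGroup.of 1) :=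
  sat_of.sys_x

theorem tv_p : tv.p = sq (PresentedGroup.of 0 : TV) (PresentedGroup.of 2) (PresentedGroup.of 3) :=
  sat_of.sys_p

theorem tv_q : tv.q = sq (PresentedGroup.of 0 : TV) (PresentedGroup.of 4) (PresentedGroup.of 5) :=
  sat_of.sys_q

theorem sq_one' {G : Type} [Group G] (a z0 z1 : G) : sq a z0 z1 1 = z1 := by
  show (a ^ 0)⁻¹ * z1 * a ^ 0 = z1
  rw [pow_zero, inv_one, one_mul, mul_one]

theorem tv_closure : Subgroup.closure
    ({tv.x 0, tv.x 1, tv.p 0, tv.p 1, tv.q 0, tv.q 1} : Set TV) = ⊤ := by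
  rw [eq_top_iff, ← PresentedGroup.closure_range_of (rels : Set (FreeGroup (Fin 6)))]
  apply Subgroup.closure_mono
  rintro _ ⟨i, rfl⟩
  simp only [Set.mem_insert_iff, Set.mem_singleton_iff]
  have e0 : tv.x 0 = PresentedGroup.of 0 := by rw [tv_x]; rfl
  have e1 : tv.x 1 = PresentedGroup.of 1 := by rw [tv_x, sq_one']
  have e2 : tv.p 0 = PresentedGroup.of 2 := by rw [tv_p]; rfl
  have e3 : tv.p 1 = PresentedGroup.of 3 := by rw [tv_p, sq_one']
  have e4 : tv.q 0 = PresentedGroup.of 4 := by rw [tv_q]; rfl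
  have e5 : tv.q 1 = PresentedGroup.of 5 := by rw [tv_q, sq_one']
  rw [e0, e1, e2, e3, e4, e5]
  fin_cases i <;> simp

/-! ### Exponential growth -/

/-- a free semigroup -/
noncomputable def fs (b : Bool) : TV := if b then tv.x 0 * tv.p 0 else tv.x 0

theorem toModel_fs (b : Bool) (n : ℕ) :
    toModel (fs b) (lf n) = lf (if b then rg n else lf n) := by
  have e0 : toModel (tv.x 0) = x0 := by rw [tv_x]; exact toModel_of 0
  have e2 : toModel (tv.p 0) = p0 := by rw [tv_p]; exact toModel_of 2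
  cases b with
  | false => simp [fs, e0]
  | true => simp [fs, e0, e2, Equiv.Perm.mul_apply]

theorem fs_inj : ∀ (l l' : List Bool), l.length = l'.length →
    (l.map fs).prod = (l'.map fs).prod → l = l' := by
  have key : ∀ (l l' : List Bool), l.length = l'.length → ∀ n n' : ℕ,
      toModel (l.map fs).prod (lf n) = toModel (l'.map fs).prod (lf n') → l = l' := by
    have img : ∀ (l : List Bool) (n : ℕ), ∃ m, toModel (l.map fs).prod (lf n) = lf m := by
      intro l
      induction l with
      | nil => intro n; exact ⟨n, by simp⟩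
      | cons b l ih =>
        intro n
        obtain ⟨m, hm⟩ := ih n
        rw [List.map_cons, List.prod_cons, map_mul, Equiv.Perm.mul_apply, hm, toModel_fs]
        exact ⟨_, rfl⟩
    intro l
    induction l with
    | nil =>
      intro l' hl n n' _
      rw [List.length_nil] at hl
      exact (List.length_eq_zero_iff.1 hl.symm).symm
    | cons b l ih =>
      intro l' hl n n' h
      cases l' with
      | nil => rw [List.length_nil, List.length_cons] at hl; omega
      | cons b' l' =>
        rw [List.length_cons, List.length_cons] at hl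
        obtain ⟨m, hm⟩ := img l n
        obtain ⟨m', hm'⟩ := img l' n'
        rw [List.map_cons, List.prod_cons, map_mul, Equiv.Perm.mul_apply, hm, toModel_fs,
          List.map_cons, List.prod_cons, map_mul, Equiv.Perm.mul_apply, hm', toModel_fs] at h
        have h1 := lf_inj h
        cases b <;> cases b' <;> simp only [if_true, if_false, Bool.false_eq_true] at h1
        · have h2 := lf_inj h1
          subst h2
          rw [ih l' (by omega) n n' (hm.trans hm'.symm)]
        · exact absurd h1 (lf_ne_rg _ _)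
        · exact absurd h1.symm (lf_ne_rg _ _)
        · have h2 := rg_inj h1
          subst h2
          rw [ih l' (by omega) n n' (hm.trans hm'.symm)]
  intro l l' hl h
  exact key l l' hl 0 0 (by rw [h])

/-- balls are finite -/
theorem ball_finite {G : Type} [Group G] (S : Finset G) (k : ℕ) :
    {g : G | ∃ l : List G, l.length ≤ k ∧ (∀ x ∈ l, x ∈ S ∨ x⁻¹ ∈ S) ∧ l.prod = g}.Finite := by
  classical
  induction k with
  | zero =>
    refine (Set.finite_singleton 1).subset ?_
    rintro g ⟨l, hl, _, rfl⟩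
    rw [List.length_eq_zero_iff.1 (Nat.le_zero.1 hl)]
    rfl
  | succ k ih =>
    have hS : (↑(S ∪ S.image fun x => x⁻¹) : Set G).Finite := Finset.finite_toSet _
    refine (((hS.prod ih).image fun p : G × G => p.1 * p.2).union ih).subset ?_
    rintro g ⟨l, hl, hlS, rfl⟩
    rcases l with _ | ⟨a, l⟩
    · exact Or.inr ⟨[], Nat.zero_le _, by simp, rfl⟩
    · refine Or.inl ⟨(a, l.prod), ⟨?_, l, ?_, ?_, rfl⟩, by rw [List.prod_cons]⟩
      · rw [Finset.mem_coe, Finset.mem_union, Finset.mem_image]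
        rcases hlS a List.mem_cons_self with h | h
        · exact Or.inl h
        · exact Or.inr ⟨_, h, inv_inv a⟩
      · rw [List.length_cons] at hl; omega
      · exact fun x hx => hlS x (List.mem_cons_of_mem _ hx)

theorem exp_growth : ∃ (S : Finset TV), Subgroup.closure (S : Set TV) = ⊤ ∧
    ∃ c : ℝ, 1 < c ∧ ∀ k : ℕ, c ^ k ≤ (Set.ncard {g : TV | ∃ l : List TV, l.length ≤ k ∧
      (∀ x ∈ l, x ∈ S ∨ x⁻¹ ∈ S) ∧ l.prod = g} : ℝ) := by
  classical
  refine ⟨{tv.x 0, tv.x 1, tv.p 0, tv.p 1, tv.q 0, tv.q 1, fs true, fs false}, ?_, 2,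
    by norm_num, ?_⟩
  · rw [eq_top_iff, ← tv_closure]
    apply Subgroup.closure_mono
    intro g hg
    simp only [Set.mem_insert_iff, Set.mem_singleton_iff] at hg
    simp only [Finset.coe_insert, Finset.coe_singleton, Set.mem_insert_iff,
      Set.mem_singleton_iff]
    tauto
  · intro k
    set S : Finset TV := {tv.x 0, tv.x 1, tv.p 0, tv.p 1, tv.q 0, tv.q 1, fs true, fs false}
    have hb : ∀ b, fs b ∈ S := by
      intro b
      cases b <;> simp [S]
    have h1 : (Set.univ : Set (Fin k → Bool)).ncard = 2 ^ k := by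
      rw [Set.ncard_univ, Nat.card_eq_fintype_card, Fintype.card_fun, Fintype.card_bool,
        Fintype.card_fin]
    have h2 : (Set.univ : Set (Fin k → Bool)).ncard ≤ Set.ncard {g : TV | ∃ l : List TV,
        l.length ≤ k ∧ (∀ x ∈ l, x ∈ S ∨ x⁻¹ ∈ S) ∧ l.prod = g} := by
      refine Set.ncard_le_ncard_of_injOn (fun f => ((List.ofFn f).map fs).prod) ?_ ?_
        (ball_finite S k)
      · intro f _
        refine ⟨(List.ofFn f).map fs, by rw [List.length_map, List.length_ofFn], ?_, rfl⟩
        intro x hx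
        rw [List.mem_map] at hx
        obtain ⟨b, _, rfl⟩ := hx
        exact Or.inl (hb b)
      · intro f _ f' _ h
        have := fs_inj _ _ (by rw [List.length_ofFn, List.length_ofFn]) h
        exact List.ofFn_injective this
    rw [h1] at h2
    exact_mod_cast h2

end Pool.Agent.K6.H89.VU
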