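import Pool.Agent.K6.H89.VU.Sys

/-! Trees, forests, and exchanges of neighbouring trees of a forest. -/

set_option autoImplicit false

namespace Pool.Agent.K6.H89.VU

/-- finite rooted binary trees -/
inductive Tr : Type
  | leaf : Tr
  | node : Tr → Tr → Tr

namespace Tr

/-- the number of inner nodes -/
def nc : Tr → ℕ
  | leaf => 0
  | node l r => nc l + nc r + 1

end Tr

namespace VSys

variable {Γ : Type} [Group Γ] (V : VSys Γ)

/-- the tree `T` grows at the leaf `i` of a comb with `k` leaves -/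
def Y : ℕ → ℕ → Tr → Γ
  | _, _, .leaf => 1
  | k, i, .node l r => V.X k i * (Y (k + 1) (i + 1) r * Y (k + 1 + r.nc) i l)

/-- descending products of exchanges -/
def rho (k : ℕ) : ℕ → ℕ → Γ
  | _, 0 => 1
  | i, b + 1 => rho k (i + 1) b * V.S k i

variable {V}

theorem rho_add (k : ℕ) : ∀ (a b i : ℕ), V.rho k (i + a) b * V.rho k i a = V.rho k i (a + b) := by
  intro a
  induction a with
  | zero => intro b i; show V.rho k i b * 1 = _; rw [mul_one, Nat.zero_add]
  | succ a ih =>
    intro b i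
    show V.rho k (i + (a + 1)) b * (V.rho k (i + 1) a * V.S k i) = _
    have e1 : i + (a + 1) = i + 1 + a := by omega
    have e2 : a + 1 + b = (a + b) + 1 := by omega
    rw [e1, ← mul_assoc, ih b (i + 1), e2]
    rfl

theorem rho_mem {k : ℕ} : ∀ (b i : ℕ), i + b + 1 ≤ k → V.rho k i b ∈ V.Sg k i := by
  intro b
  induction b with
  | zero => intro i _; exact Subgroup.one_mem _
  | succ b ih =>
    intro i hi
    exact Subgroup.mul_mem _ (Sg_mono (by omega) (ih (i + 1) (by omega)))
      (mem_Sg le_rfl (by omega))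

/-- Elements of `Sg k i` pass through trees growing to the left of `i`. -/
theorem Sg_Y (T : Tr) : ∀ {k i l : ℕ} (_ : l < i) {w : Γ} (_ : w ∈ V.Sg k i),
    ∃ w' ∈ V.Sg (k + T.nc) (i + T.nc), w * V.Y k l T = V.Y k l T * w' := by
  induction T with
  | leaf => intro k i l _ w hw; exact ⟨w, hw, by show w * 1 = 1 * w; rw [one_mul, mul_one]⟩
  | node L R hL hR =>
    intro k i l hl w hw
    obtain ⟨w1, hw1, e1⟩ := Sg_X hl hw
    obtain ⟨w2, hw2, e2⟩ := hR (l := l + 1) (by omega) hw1
    obtain ⟨w3, hw3, e3⟩ := hL (l := l) (by omega) hw2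
    have e4 : k + 1 + R.nc + L.nc = k + (Tr.node L R).nc := by
      show _ = k + (L.nc + R.nc + 1); omega
    have e5 : i + 1 + R.nc + L.nc = i + (Tr.node L R).nc := by
      show _ = i + (L.nc + R.nc + 1); omega
    rw [e4, e5] at hw3
    refine ⟨w3, hw3, ?_⟩
    show w * (V.X k l * (V.Y (k + 1) (l + 1) R * V.Y (k + 1 + R.nc) l L)) =
      V.X k l * (V.Y (k + 1) (l + 1) R * V.Y (k + 1 + R.nc) l L) * w3
    calc w * (V.X k l * (V.Y (k + 1) (l + 1) R * V.Y (k + 1 + R.nc) l L))
        = (w * V.X k l) * (V.Y (k + 1) (l + 1) R * V.Y (k + 1 + R.nc) l L) := by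
          simp only [mul_assoc]
      _ = V.X k l * (w1 * V.Y (k + 1) (l + 1) R) * V.Y (k + 1 + R.nc) l L := by
          rw [e1]; simp only [mul_assoc]
      _ = V.X k l * V.Y (k + 1) (l + 1) R * (w2 * V.Y (k + 1 + R.nc) l L) := by
          rw [e2]; simp only [mul_assoc]
      _ = _ := by rw [e3]; simp only [mul_assoc]

/-- One exchange passes through a tree growing to its left. -/
theorem S_Y_lo (T : Tr) : ∀ {k i j : ℕ} (_ : i < j) (_ : j + 2 ≤ k),
    V.S k j * V.Y k i T = V.Y k i T * V.S (k + T.nc) (j + T.nc) := by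
  induction T with
  | leaf => intro k i j _ _; show _ * 1 = 1 * _; rw [one_mul, mul_one]; rfl
  | node L R hL hR =>
    intro k i j hij hj
    have e1 := V.SX_lo hij hj
    have e2 := hR (k := k + 1) (i := i + 1) (j := j + 1) (by omega) (by omega)
    have e3 := hL (k := k + 1 + R.nc) (i := i) (j := j + 1 + R.nc) (by omega) (by omega)
    have e4 : k + 1 + R.nc + L.nc = k + (Tr.node L R).nc := by
      show _ = k + (L.nc + R.nc + 1); omega
    have e5 : j + 1 + R.nc + L.nc = j + (Tr.node L R).nc := by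
      show _ = j + (L.nc + R.nc + 1); omega
    rw [e4, e5] at e3
    show V.S k j * (V.X k i * (V.Y (k + 1) (i + 1) R * V.Y (k + 1 + R.nc) i L)) =
      V.X k i * (V.Y (k + 1) (i + 1) R * V.Y (k + 1 + R.nc) i L) * _
    calc V.S k j * (V.X k i * (V.Y (k + 1) (i + 1) R * V.Y (k + 1 + R.nc) i L))
        = (V.S k j * V.X k i) * (V.Y (k + 1) (i + 1) R * V.Y (k + 1 + R.nc) i L) := by
          simp only [mul_assoc]
      _ = V.X k i * (V.S (k + 1) (j + 1) * V.Y (k + 1) (i + 1) R) * V.Y (k + 1 + R.nc) i L := by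
          rw [e1]; simp only [mul_assoc]
      _ = V.X k i * V.Y (k + 1) (i + 1) R *
          (V.S (k + 1 + R.nc) (j + 1 + R.nc) * V.Y (k + 1 + R.nc) i L) := by
          rw [e2]; simp only [mul_assoc]
      _ = _ := by rw [e3]; simp only [mul_assoc]

/-- One exchange passes through a tree growing to its right. -/
theorem S_Y_hi (T : Tr) : ∀ {k i j : ℕ} (_ : j + 2 ≤ i) (_ : i < k),
    V.S k j * V.Y k i T = V.Y k i T * V.S (k + T.nc) j := by
  induction T with
  | leaf => intro k i j _ _; show _ * 1 = 1 * _; rw [one_mul, mul_one]; rfl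
  | node L R hL hR =>
    intro k i j hij hi
    have e1 := V.SX_hi hij hi
    have e2 := hR (k := k + 1) (i := i + 1) (j := j) (by omega) (by omega)
    have e3 := hL (k := k + 1 + R.nc) (i := i) (j := j) (by omega) (by omega)
    have e4 : k + 1 + R.nc + L.nc = k + (Tr.node L R).nc := by
      show _ = k + (L.nc + R.nc + 1); omega
    rw [e4] at e3
    show V.S k j * (V.X k i * (V.Y (k + 1) (i + 1) R * V.Y (k + 1 + R.nc) i L)) =
      V.X k i * (V.Y (k + 1) (i + 1) R * V.Y (k + 1 + R.nc) i L) * _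
    calc V.S k j * (V.X k i * (V.Y (k + 1) (i + 1) R * V.Y (k + 1 + R.nc) i L))
        = (V.S k j * V.X k i) * (V.Y (k + 1) (i + 1) R * V.Y (k + 1 + R.nc) i L) := by
          simp only [mul_assoc]
      _ = V.X k i * (V.S (k + 1) j * V.Y (k + 1) (i + 1) R) * V.Y (k + 1 + R.nc) i L := by
          rw [e1]; simp only [mul_assoc]
      _ = V.X k i * V.Y (k + 1) (i + 1) R *
          (V.S (k + 1 + R.nc) j * V.Y (k + 1 + R.nc) i L) := by
          rw [e2]; simp only [mul_assoc]
      _ = _ := by rw [e3]; simp only [mul_assoc]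

/-- descending products pass through a tree growing to their left -/
theorem rho_Y (T : Tr) {k i : ℕ} : ∀ (b j : ℕ), i < j → j + b + 1 ≤ k →
    V.rho k j b * V.Y k i T = V.Y k i T * V.rho (k + T.nc) (j + T.nc) b := by
  intro b
  induction b with
  | zero => intro j _ _; show 1 * _ = _ * 1; rw [one_mul, mul_one]
  | succ b ih =>
    intro j hj hb
    show V.rho k (j + 1) b * V.S k j * V.Y k i T =
      V.Y k i T * (V.rho (k + T.nc) (j + T.nc + 1) b * V.S (k + T.nc) (j + T.nc))
    have e : j + T.nc + 1 = j + 1 + T.nc := by omega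
    rw [mul_assoc, S_Y_lo T hj (by omega), ← mul_assoc, ih (j + 1) (by omega) (by omega), e,
      mul_assoc]

/-- A tree jumps over a leaf to its left. -/
theorem S_Y_succ (B : Tr) : ∀ {k i : ℕ} (_ : i + 2 ≤ k),
    V.S k i * V.Y k (i + 1) B = V.Y k i B * V.rho (k + B.nc) i (B.nc + 1) := by
  induction B with
  | leaf =>
    intro k i _
    show V.S k i * 1 = 1 * (1 * V.S k i)
    rw [mul_one, one_mul, one_mul]
  | node L R hL hR =>
    intro k i hi
    have e1 := V.SX_eq' (j := i) (k := k) hi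
    have e2 := S_Y_hi (V := V) R (k := k + 1) (i := i + 2) (j := i) le_rfl (by omega)
    have e3 := hR (k := k + 1) (i := i + 1) (by omega)
    have e4 := hL (k := k + 1 + R.nc) (i := i) (by omega)
    have e5 := rho_Y (V := V) L (k := k + 1 + R.nc) (i := i) (R.nc + 1) (i + 1) (by omega) (by omega)
    have e6 := rho_add (V := V) (k + 1 + R.nc + L.nc) (L.nc + 1) (R.nc + 1) i
    have e7 : i + 1 + L.nc = i + (L.nc + 1) := by omega
    rw [e7] at e5
    have e8 : k + 1 + R.nc + L.nc = k + (Tr.node L R).nc := by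
      show _ = k + (L.nc + R.nc + 1); omega
    have e9 : L.nc + 1 + (R.nc + 1) = (Tr.node L R).nc + 1 := by
      show _ = L.nc + R.nc + 1 + 1; omega
    rw [e8, e9] at e6
    rw [e8] at e4 e5
    show V.S k i * (V.X k (i + 1) * (V.Y (k + 1) (i + 1 + 1) R * V.Y (k + 1 + R.nc) (i + 1) L)) =
      V.X k i * (V.Y (k + 1) (i + 1) R * V.Y (k + 1 + R.nc) i L) * _
    calc V.S k i * (V.X k (i + 1) * (V.Y (k + 1) (i + 1 + 1) R * V.Y (k + 1 + R.nc) (i + 1) L))
        = (V.S k i * V.X k (i + 1)) * (V.Y (k + 1) (i + 2) R * V.Y (k + 1 + R.nc) (i + 1) L) := by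
          simp only [mul_assoc]
      _ = V.X k i * V.S (k + 1) (i + 1) * (V.S (k + 1) i * V.Y (k + 1) (i + 2) R) *
          V.Y (k + 1 + R.nc) (i + 1) L := by rw [e1]; simp only [mul_assoc]
      _ = V.X k i * (V.S (k + 1) (i + 1) * V.Y (k + 1) (i + 1 + 1) R) *
          (V.S (k + 1 + R.nc) i * V.Y (k + 1 + R.nc) (i + 1) L) := by
          rw [e2]; simp only [mul_assoc]
      _ = V.X k i * V.Y (k + 1) (i + 1) R *
          (V.rho (k + 1 + R.nc) (i + 1) (R.nc + 1) * V.Y (k + 1 + R.nc) i L) *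
          V.rho (k + (Tr.node L R).nc) i (L.nc + 1) := by
          rw [e3, e4]; simp only [mul_assoc]
      _ = V.X k i * V.Y (k + 1) (i + 1) R * V.Y (k + 1 + R.nc) i L *
          (V.rho (k + (Tr.node L R).nc) (i + (L.nc + 1)) (R.nc + 1) *
          V.rho (k + (Tr.node L R).nc) i (L.nc + 1)) := by
          rw [e5]; simp only [mul_assoc]
      _ = _ := by rw [e6]; simp only [mul_assoc]

/-- A tree jumps over a leaf to its right. -/
theorem S_Y_self (B : Tr) {k i : ℕ} (hi : i + 2 ≤ k) :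
    ∃ w ∈ V.Sg (k + B.nc) i, V.S k i * V.Y k i B = V.Y k (i + 1) B * w := by
  have h := S_Y_succ (V := V) B hi
  refine ⟨(V.rho (k + B.nc) i (B.nc + 1))⁻¹, Subgroup.inv_mem _ (rho_mem _ _ (by omega)), ?_⟩
  rw [eq_mul_inv_iff_mul_eq, mul_assoc, ← h, ← mul_assoc, V.SS, one_mul]

/-- A descending product moves a tree to the right. -/
theorem rho_Y_self (A : Tr) {k : ℕ} : ∀ (b i : ℕ), i + b + 1 ≤ k →
    ∃ w ∈ V.Sg (k + A.nc) i, V.rho k i b * V.Y k i A = V.Y k (i + b) A * w := by
  intro b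
  induction b with
  | zero =>
    intro i _
    exact ⟨1, Subgroup.one_mem _, by show 1 * V.Y k i A = V.Y k i A * 1; rw [one_mul, mul_one]⟩
  | succ b ih =>
    intro i hi
    obtain ⟨w1, hw1, e1⟩ := S_Y_self (V := V) A (k := k) (i := i) (by omega)
    obtain ⟨w2, hw2, e2⟩ := ih (i + 1) (by omega)
    refine ⟨w2 * w1, Subgroup.mul_mem _ (Sg_mono (by omega) hw2) hw1, ?_⟩
    show V.rho k (i + 1) b * V.S k i * V.Y k i A = _
    have e : i + (b + 1) = i + 1 + b := by omega
    rw [mul_assoc, e1, ← mul_assoc, e2, e, mul_assoc]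

/-- splittings of leaves to the left commute with trees growing to the right -/
theorem Y_X (A : Tr) : ∀ {k i j : ℕ} (_ : i < j) (_ : j < k),
    V.Y k j A * V.X (k + A.nc) i = V.X k i * V.Y (k + 1) (j + 1) A := by
  induction A with
  | leaf => intro k i j _ _; show 1 * V.X k i = V.X k i * 1; rw [one_mul, mul_one]
  | node L R hL hR =>
    intro k i j hij hj
    have e1 := V.XX hij hj
    have e2 := hR (k := k + 1) (i := i) (j := j + 1) (by omega) (by omega)
    have e3 := hL (k := k + 1 + R.nc) (i := i) (j := j) (by omega) (by omega)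
    have e4 : k + 1 + R.nc + L.nc = k + (Tr.node L R).nc := by
      show _ = k + (L.nc + R.nc + 1); omega
    rw [e4] at e3
    have e5 : k + 1 + R.nc + 1 = k + 1 + 1 + R.nc := by omega
    show V.X k j * (V.Y (k + 1) (j + 1) R * V.Y (k + 1 + R.nc) j L) * _ =
      V.X k i * (V.X (k + 1) (j + 1) * (V.Y (k + 1 + 1) (j + 1 + 1) R *
        V.Y (k + 1 + 1 + R.nc) (j + 1) L))
    calc V.X k j * (V.Y (k + 1) (j + 1) R * V.Y (k + 1 + R.nc) j L) *
          V.X (k + (Tr.node L R).nc) i
        = V.X k j * V.Y (k + 1) (j + 1) R *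
          (V.Y (k + 1 + R.nc) j L * V.X (k + (Tr.node L R).nc) i) := by simp only [mul_assoc]
      _ = V.X k j * (V.Y (k + 1) (j + 1) R * V.X (k + 1 + R.nc) i) *
          V.Y (k + 1 + R.nc + 1) (j + 1) L := by rw [e3]; simp only [mul_assoc]
      _ = (V.X k j * V.X (k + 1) i) * V.Y (k + 1 + 1) (j + 1 + 1) R *
          V.Y (k + 1 + R.nc + 1) (j + 1) L := by rw [e2]; simp only [mul_assoc]
      _ = _ := by rw [e1, e5]; simp only [mul_assoc]

/-- trees growing at different leaves commute -/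
theorem Y_Y (B A : Tr) : ∀ {k i j : ℕ} (_ : i < j) (_ : j < k),
    V.Y k j A * V.Y (k + A.nc) i B = V.Y k i B * V.Y (k + B.nc) (j + B.nc) A := by
  induction B generalizing A with
  | leaf => intro k i j _ _; show V.Y k j A * 1 = 1 * V.Y k j A; rw [one_mul, mul_one]
  | node L R hL hR =>
    intro k i j hij hj
    have e1 := Y_X (V := V) A hij hj
    have e2 := hR A (k := k + 1) (i := i + 1) (j := j + 1) (by omega) (by omega)
    have e3 := hL A (k := k + 1 + R.nc) (i := i) (j := j + 1 + R.nc) (by omega) (by omega)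
    have e4 : k + A.nc + 1 = k + 1 + A.nc := by omega
    have e5 : k + A.nc + 1 + R.nc = k + 1 + R.nc + A.nc := by omega
    have e6 : k + 1 + R.nc + L.nc = k + (Tr.node L R).nc := by
      show _ = k + (L.nc + R.nc + 1); omega
    have e7 : j + 1 + R.nc + L.nc = j + (Tr.node L R).nc := by
      show _ = j + (L.nc + R.nc + 1); omega
    show V.Y k j A * (V.X (k + A.nc) i * (V.Y (k + A.nc + 1) (i + 1) R *
        V.Y (k + A.nc + 1 + R.nc) i L)) =
      V.X k i * (V.Y (k + 1) (i + 1) R * V.Y (k + 1 + R.nc) i L) * _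
    calc V.Y k j A * (V.X (k + A.nc) i * (V.Y (k + A.nc + 1) (i + 1) R *
          V.Y (k + A.nc + 1 + R.nc) i L))
        = (V.Y k j A * V.X (k + A.nc) i) * (V.Y (k + A.nc + 1) (i + 1) R *
          V.Y (k + A.nc + 1 + R.nc) i L) := by simp only [mul_assoc]
      _ = V.X k i * (V.Y (k + 1) (j + 1) A * V.Y (k + 1 + A.nc) (i + 1) R) *
          V.Y (k + 1 + R.nc + A.nc) i L := by rw [e1, e5, e4]; simp only [mul_assoc]
      _ = V.X k i * V.Y (k + 1) (i + 1) R * (V.Y (k + 1 + R.nc) (j + 1 + R.nc) A *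
          V.Y (k + 1 + R.nc + A.nc) i L) := by rw [e2]; simp only [mul_assoc]
      _ = _ := by rw [e3, e6, e7]; simp only [mul_assoc]

/-- Exchange of two neighbouring trees. -/
theorem swap_two (A B : Tr) {k i : ℕ} (hi : i + 2 ≤ k) :
    ∃ w ∈ V.Sg (k + A.nc + B.nc) i,
      V.S k i * (V.Y k (i + 1) B * V.Y (k + B.nc) i A) =
        V.Y k (i + 1) A * V.Y (k + A.nc) i B * w := by
  have h1 := S_Y_succ (V := V) B hi
  obtain ⟨w, hw, h2⟩ := rho_Y_self (V := V) A (k := k + B.nc) (B.nc + 1) i (by omega)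
  have h3 := Y_Y (V := V) B A (k := k) (i := i) (j := i + 1) (by omega) (by omega)
  have e1 : k + B.nc + A.nc = k + A.nc + B.nc := by omega
  have e2 : i + (B.nc + 1) = i + 1 + B.nc := by omega
  rw [e1] at hw
  rw [e2] at h2
  refine ⟨w, hw, ?_⟩
  calc V.S k i * (V.Y k (i + 1) B * V.Y (k + B.nc) i A)
      = V.Y k i B * (V.rho (k + B.nc) i (B.nc + 1) * V.Y (k + B.nc) i A) := by
        rw [← mul_assoc, h1, mul_assoc]
    _ = V.Y k i B * V.Y (k + B.nc) (i + 1 + B.nc) A * w := by rw [h2, mul_assoc]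
    _ = _ := by rw [← h3]

end VSys

end Pool.Agent.K6.H89.VU
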