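import Pool.Agent.K6.H89.VU.Cox

/-! Systems of elements which satisfy the relations of Thompson's group `V`. -/

set_option autoImplicit false

namespace Pool.Agent.K6.H89.VU

/-- Elements `x i`, `p i`, `q i` of a group which satisfy the relations of Thompson's group `V`:
`x i` splits the leaf `i` of a right comb, `p i` exchanges the leaves `i` and `i + 1` of a large
comb, and `q i` exchanges the two last leaves of the comb with `i + 2` leaves. -/
structure VSys (Γ : Type) [Group Γ] where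
  x : ℕ → Γ
  p : ℕ → Γ
  q : ℕ → Γ
  xx : ∀ i j, i < j → x j * x i = x i * x (j + 1)
  pp : ∀ i, p i * p i = 1
  qq : ∀ i, q i * q i = 1
  cp : ∀ i j, i + 2 ≤ j → p i * p j = p j * p i
  cq : ∀ i j, i + 2 ≤ j → p i * q j = q j * p i
  bp : ∀ i, p i * p (i + 1) * p i = p (i + 1) * p i * p (i + 1)
  bq : ∀ i, p i * q (i + 1) * p i = q (i + 1) * p i * q (i + 1)
  px : ∀ i j, i < j → p j * x i = x i * p (j + 1)
  qx : ∀ i j, i < j → q j * x i = x i * q (j + 1)
  fx : ∀ i j, i + 2 ≤ j → p i * x j = x j * p i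
  gx : ∀ j, p j * x j = x (j + 1) * (p j * p (j + 1))
  hx : ∀ j, q j * x j = p j * q (j + 1)

namespace VSys

variable {Γ : Type} [Group Γ] (V : VSys Γ)

/-- splitting the leaf `i` of the comb with `k` leaves -/
def X (k i : ℕ) : Γ := if i + 1 < k then V.x i else 1

/-- the exchange of the leaves `j`, `j + 1` of the comb with `k` leaves -/
def S (k j : ℕ) : Γ := if j + 2 < k then V.p j else V.q j

variable {V}

theorem X_lt {k i : ℕ} (h : i + 1 < k) : V.X k i = V.x i := by unfold X; rw [if_pos h]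
theorem X_ge {k i : ℕ} (h : k ≤ i + 1) : V.X k i = 1 := by unfold X; rw [if_neg (by omega)]
theorem S_lt {k j : ℕ} (h : j + 2 < k) : V.S k j = V.p j := by unfold S; rw [if_pos h]
theorem S_ge {k j : ℕ} (h : k ≤ j + 2) : V.S k j = V.q j := by unfold S; rw [if_neg (by omega)]

theorem SS (k j : ℕ) : V.S k j * V.S k j = 1 := by
  unfold S; split_ifs
  · exact V.pp j
  · exact V.qq j

theorem S_inv (k j : ℕ) : (V.S k j)⁻¹ = V.S k j := inv_eq_of_mul_eq_one_left (V.SS k j)

theorem XX {k i j : ℕ} (hij : i < j) (hj : j < k) :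
    V.X k j * V.X (k + 1) i = V.X k i * V.X (k + 1) (j + 1) := by
  rw [X_lt (k := k) (i := i) (by omega), X_lt (k := k + 1) (i := i) (by omega)]
  by_cases h : j + 1 < k
  · rw [X_lt h, X_lt (by omega), V.xx i j hij]
  · rw [X_ge (by omega), X_ge (by omega), one_mul, mul_one]

/-- the exchange is to the right of the split leaf -/
theorem SX_lo {k i j : ℕ} (hij : i < j) (hj : j + 2 ≤ k) :
    V.S k j * V.X k i = V.X k i * V.S (k + 1) (j + 1) := by
  rw [X_lt (k := k) (i := i) (by omega)]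
  by_cases h : j + 2 < k
  · rw [S_lt h, S_lt (by omega), V.px i j hij]
  · rw [S_ge (by omega), S_ge (by omega), V.qx i j hij]

/-- the exchange is to the left of the split leaf -/
theorem SX_hi {k i j : ℕ} (hij : j + 2 ≤ i) (hi : i < k) :
    V.S k j * V.X k i = V.X k i * V.S (k + 1) j := by
  rw [S_lt (k := k) (j := j) (by omega), S_lt (k := k + 1) (j := j) (by omega)]
  by_cases h : i + 1 < k
  · rw [X_lt h, V.fx j i hij]
  · rw [X_ge (by omega), one_mul, mul_one]

theorem SX_eq {k j : ℕ} (hj : j + 2 ≤ k) :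
    V.S k j * V.X k j = V.X k (j + 1) * (V.S (k + 1) j * V.S (k + 1) (j + 1)) := by
  rw [X_lt (k := k) (i := j) (by omega), S_lt (k := k + 1) (j := j) (by omega)]
  by_cases h : j + 2 < k
  · rw [S_lt h, S_lt (by omega), X_lt (by omega), V.gx j]
  · rw [S_ge (by omega), S_ge (by omega), X_ge (by omega), one_mul, V.hx j]

theorem SX_eq' {k j : ℕ} (hj : j + 2 ≤ k) :
    V.S k j * V.X k (j + 1) = V.X k j * (V.S (k + 1) (j + 1) * V.S (k + 1) j) := by
  have h := V.SX_eq hj
  have h1 : V.X k j = V.S k j * (V.X k (j + 1) * (V.S (k + 1) j * V.S (k + 1) (j + 1))) := by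
    rw [← h, ← mul_assoc, V.SS, one_mul]
  rw [h1]
  have e : V.S (k + 1) j * V.S (k + 1) (j + 1) * (V.S (k + 1) (j + 1) * V.S (k + 1) j) = 1 := by
    rw [mul_assoc, ← mul_assoc (V.S (k + 1) (j + 1)), V.SS, one_mul, V.SS]
  rw [mul_assoc, mul_assoc, e, mul_one]

/-- the exchanges of a comb satisfy the Coxeter relations -/
theorem cox (k : ℕ) : Cox (V.S (k + 1)) k := by
  refine ⟨fun i _ => V.SS _ i, ?_, ?_⟩
  · intro i hi
    rw [S_lt (k := k + 1) (j := i) (by omega)]
    by_cases h : i + 1 + 2 < k + 1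
    · rw [S_lt h]; exact V.bp i
    · rw [S_ge (by omega)]; exact V.bq i
  · intro i j hij hj
    rw [S_lt (k := k + 1) (j := i) (by omega)]
    by_cases h : j + 2 < k + 1
    · rw [S_lt h]; exact V.cp i j hij
    · rw [S_ge (by omega)]; exact V.cq i j hij

/-! ### The groups generated by the exchanges -/

variable (V)

/-- the group generated by the exchanges of the leaves `≥ i` of the comb with `k` leaves -/
def Sg (k i : ℕ) : Subgroup Γ := Subgroup.closure {g | ∃ j, i ≤ j ∧ j + 2 ≤ k ∧ V.S k j = g}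

variable {V}

theorem mem_Sg {k i j : ℕ} (h : i ≤ j) (h' : j + 2 ≤ k) : V.S k j ∈ V.Sg k i :=
  Subgroup.subset_closure ⟨j, h, h', rfl⟩

theorem Sg_mono {k i j : ℕ} (h : i ≤ j) : V.Sg k j ≤ V.Sg k i :=
  Subgroup.closure_mono (by rintro g ⟨l, hl, hl', rfl⟩; exact ⟨l, by omega, hl', rfl⟩)

theorem Sg_eq (k : ℕ) : V.Sg (k + 1) 0 = CG (V.S (k + 1)) k := by
  unfold Sg CG
  congr 1
  ext g
  constructor
  · rintro ⟨j, _, h, rfl⟩; exact ⟨j, by omega, rfl⟩
  · rintro ⟨j, h, rfl⟩; exact ⟨j, by omega, by omega, rfl⟩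

theorem Sg_fin (k : ℕ) : ((V.Sg (k + 1) 0 : Subgroup Γ) : Set Γ).Finite ∧
    ((V.Sg (k + 1) 0 : Subgroup Γ) : Set Γ).ncard ≤ (k + 1).factorial := by
  rw [Sg_eq]; exact CG_fin k (V.cox k)

/-- Elements of `Sg k i` pass through the splitting of a leaf to the left of `i`. -/
theorem Sg_X {k i l : ℕ} (hl : l < i) {w : Γ} (hw : w ∈ V.Sg k i) :
    ∃ w' ∈ V.Sg (k + 1) (i + 1), w * V.X k l = V.X k l * w' := by
  unfold Sg at hw
  induction hw using Subgroup.closure_induction with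
  | mem g hg =>
    obtain ⟨j, h1, h2, rfl⟩ := hg
    exact ⟨_, mem_Sg (j := j + 1) (by omega) (by omega), V.SX_lo (by omega) h2⟩
  | one => exact ⟨1, Subgroup.one_mem _, by rw [one_mul, mul_one]⟩
  | mul a b _ _ ha hb =>
    obtain ⟨a', ha', ea⟩ := ha
    obtain ⟨b', hb', eb⟩ := hb
    exact ⟨a' * b', Subgroup.mul_mem _ ha' hb', by rw [mul_assoc, eb, ← mul_assoc, ea, mul_assoc]⟩
  | inv a _ ha =>
    obtain ⟨a', ha', ea⟩ := ha
    refine ⟨a'⁻¹, Subgroup.inv_mem _ ha', ?_⟩
    rw [inv_mul_eq_iff_eq_mul, ← mul_assoc, ea, mul_assoc, mul_inv_cancel, mul_one]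

/-- Elements of the group of all exchanges pass through splittings. -/
theorem Sg_X' {k : ℕ} {w : Γ} (hw : w ∈ V.Sg k 0) : ∀ i, i < k →
    ∃ i' < k, ∃ w' ∈ V.Sg (k + 1) 0, w * V.X k i = V.X k i' * w' := by
  have hgen : ∀ j, j + 2 ≤ k → ∀ i, i < k →
      ∃ i' < k, ∃ w' ∈ V.Sg (k + 1) 0, V.S k j * V.X k i = V.X k i' * w' := by
    intro j hj i hi
    rcases lt_trichotomy i j with h | h | h
    · exact ⟨i, hi, _, mem_Sg (j := j + 1) (by omega) (by omega), V.SX_lo h hj⟩
    · subst h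
      exact ⟨i + 1, by omega, _, Subgroup.mul_mem _ (mem_Sg (j := i) (by omega) (by omega))
        (mem_Sg (j := i + 1) (by omega) (by omega)), V.SX_eq hj⟩
    · by_cases h' : i = j + 1
      · subst h'
        exact ⟨j, by omega, _, Subgroup.mul_mem _ (mem_Sg (j := j + 1) (by omega) (by omega))
          (mem_Sg (j := j) (by omega) (by omega)), V.SX_eq' hj⟩
      · exact ⟨i, hi, _, mem_Sg (j := j) (by omega) (by omega), V.SX_hi (by omega) hi⟩
  unfold Sg at hw
  induction hw using Subgroup.closure_induction'' with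
  | mem g hg =>
    obtain ⟨j, _, h2, rfl⟩ := hg
    exact hgen j h2
  | inv_mem g hg =>
    obtain ⟨j, _, h2, rfl⟩ := hg
    rw [S_inv]
    exact hgen j h2
  | one => exact fun i hi => ⟨i, hi, 1, Subgroup.one_mem _, by rw [one_mul, mul_one]⟩
  | mul a b _ _ ha hb =>
    intro i hi
    obtain ⟨i1, hi1, b', hb', eb⟩ := hb i hi
    obtain ⟨i2, hi2, a', ha', ea⟩ := ha i1 hi1
    exact ⟨i2, hi2, a' * b', Subgroup.mul_mem _ ha' hb',
      by rw [mul_assoc, eb, ← mul_assoc, ea, mul_assoc]⟩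

end VSys

end Pool.Agent.K6.H89.VU
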