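import Pool.Agent.K6.H89.VU.Forest

/-! The weight of a forest and the size of balls. -/

set_option autoImplicit false

namespace Pool.Agent.K6.H89.VU

/-- the weight of a tree at position `i` -/
def fw (N i : ℕ) : Tr → ℕ
  | .leaf => 2 * N - i
  | .node l r => N * (l.nc + r.nc + 2)

/-- the weight of a forest -/
def wt (N : ℕ) : ℕ → List Tr → ℕ
  | _, [] => 0
  | i, T :: L => fw N i T + wt N (i + 1) L

theorem fw_anti (N i : ℕ) (T : Tr) : fw N (i + 1) T ≤ fw N i T := by
  cases T with
  | leaf => show 2 * N - (i + 1) ≤ 2 * N - i; omega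
  | node l r => exact le_rfl

theorem fw_succ (N i : ℕ) (T : Tr) : fw N i T ≤ fw N (i + 1) T + 1 := by
  cases T with
  | leaf => show 2 * N - i ≤ 2 * N - (i + 1) + 1; omega
  | node l r => exact Nat.le_succ _

theorem fw_ge {N i : ℕ} (h : i ≤ N) (T : Tr) : N * (T.nc + 1) ≤ fw N i T := by
  cases T with
  | leaf => show N * (0 + 1) ≤ 2 * N - i; omega
  | node l r => exact le_rfl

theorem wt_append (N : ℕ) (L M : List Tr) : ∀ i, wt N i (L ++ M) =
    wt N i L + wt N (i + L.length) M := by
  induction L with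
  | nil => intro i; show wt N i M = 0 + wt N (i + 0) M; rw [Nat.zero_add]; rfl
  | cons T L ih =>
    intro i
    show fw N i T + wt N (i + 1) (L ++ M) = fw N i T + wt N (i + 1) L + wt N (i + (T :: L).length) M
    rw [ih, List.length_cons, show i + (L.length + 1) = i + 1 + L.length by omega]
    omega

theorem wt_swap (N : ℕ) (l1 l2 : List Tr) (A B : Tr) :
    wt N 0 (l1 ++ B :: A :: l2) ≤ wt N 0 (l1 ++ A :: B :: l2) + 1 := by
  rw [wt_append, wt_append]
  show wt N 0 l1 + (fw N (0 + l1.length) B + (fw N (0 + l1.length + 1) A + wt N _ l2)) ≤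
    wt N 0 l1 + (fw N (0 + l1.length) A + (fw N (0 + l1.length + 1) B + wt N _ l2)) + 1
  have h1 := fw_anti N (0 + l1.length) A
  have h2 := fw_succ N (0 + l1.length) B
  omega

theorem wt_ge (N : ℕ) (L : List Tr) : ∀ i, i + L.length ≤ N + 1 →
    N * (ncs L + L.length) ≤ wt N i L := by
  induction L with
  | nil => intro i _; show N * (0 + 0) ≤ 0; omega
  | cons T L ih =>
    intro i hi
    rw [List.length_cons] at hi
    show N * (T.nc + ncs L + (L.length + 1)) ≤ fw N i T + wt N (i + 1) L
    have h1 := ih (i + 1) (by omega)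
    have h2 := fw_ge (N := N) (i := i) (by omega) T
    have e : N * (T.nc + ncs L + (L.length + 1)) = N * (T.nc + 1) + N * (ncs L + L.length) := by
      ring
    omega

theorem wt_leaves (N : ℕ) : ∀ n i, wt N i (List.replicate n .leaf) ≤ 2 * N * n := by
  intro n
  induction n with
  | zero => intro i; exact Nat.zero_le _
  | succ n ih =>
    intro i
    rw [List.replicate_succ]
    show 2 * N - i + wt N (i + 1) (List.replicate n .leaf) ≤ _
    have := ih (i + 1)
    have e : 2 * N * (n + 1) = 2 * N * n + 2 * N := by ring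
    omega

theorem ncs_leaves (n : ℕ) : ncs (List.replicate n .leaf) = 0 := by
  induction n with
  | zero => rfl
  | succ n ih => rw [List.replicate_succ]; show 0 + ncs (List.replicate n .leaf) = 0; rw [ih]

/-- The effect of the long exchange on the weight. -/
theorem wt_ee {m : ℕ} {L : List Tr} (hL : L.length = m) (A1 A2 B1 B2 : Tr) :
    wt (m + 2) 0 (.node B1 B2 :: (L ++ [A1, A2])) ≤
      wt (m + 2) 0 (.node A1 A2 :: (L ++ [B1, B2])) + 1 := by
  show (m + 2) * (B1.nc + B2.nc + 2) + wt (m + 2) (0 + 1) (L ++ [A1, A2]) ≤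
    (m + 2) * (A1.nc + A2.nc + 2) + wt (m + 2) (0 + 1) (L ++ [B1, B2]) + 1
  rw [wt_append, wt_append, hL]
  show (m + 2) * (B1.nc + B2.nc + 2) + (wt (m + 2) (0 + 1) L +
      (fw (m + 2) (0 + 1 + m) A1 + (fw (m + 2) (0 + 1 + m + 1) A2 + 0))) ≤
    (m + 2) * (A1.nc + A2.nc + 2) + (wt (m + 2) (0 + 1) L +
      (fw (m + 2) (0 + 1 + m) B1 + (fw (m + 2) (0 + 1 + m + 1) B2 + 0))) + 1
  have h1 := fw_ge (N := m + 2) (i := 0 + 1 + m) (by omega) B1
  have h2 := fw_ge (N := m + 2) (i := 0 + 1 + m + 1) (by omega) B2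
  have key : ∀ T : Tr, fw (m + 2) (0 + 1 + m + 1) T ≤ (m + 2) * (T.nc + 1) := by
    intro T
    cases T with
    | leaf => show 2 * (m + 2) - (0 + 1 + m + 1) ≤ (m + 2) * (0 + 1); omega
    | node l r => exact le_rfl
  have h3 := key A2
  have h4 := (fw_succ (m + 2) (0 + 1 + m) A1).trans (Nat.add_le_add_right (key A1) 1)
  have e1 : (m + 2) * (B1.nc + B2.nc + 2) = (m + 2) * (B1.nc + 1) + (m + 2) * (B2.nc + 1) := by ring
  have e2 : (m + 2) * (A1.nc + A2.nc + 2) = (m + 2) * (A1.nc + 1) + (m + 2) * (A2.nc + 1) := by ring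
  omega

/-- The effect of the long exchange on the weight, if the first tree is a leaf. -/
theorem wt_ee' {m : ℕ} {L : List Tr} (hL : L.length = m) (B1 B2 : Tr) :
    wt (m + 2) 0 (.node B1 B2 :: (L ++ [.leaf, .leaf])) ≤
      wt (m + 2) 0 (.leaf :: (L ++ [B1, B2])) + 1 := by
  have h := wt_ee hL .leaf .leaf B1 B2
  refine h.trans (le_of_eq ?_)
  show (m + 2) * (0 + 0 + 2) + wt (m + 2) (0 + 1) (L ++ [B1, B2]) + 1 =
    2 * (m + 2) - 0 + wt (m + 2) (0 + 1) (L ++ [B1, B2]) + 1
  omega

namespace VSys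

variable {Γ : Type} [Group Γ] (V : VSys Γ)

/-- the slow generators -/
def gens (m : ℕ) : Set Γ := {g | (∃ i, i + 2 ≤ m + 3 ∧ V.S (m + 3) i = g) ∨ V.ee m = g}

/-- elements described by a forest of weight at most `W` -/
def Wt (m W : ℕ) (g : Γ) : Prop := ∃ Q, V.St m g Q ∧ wt (m + 2) 0 Q ≤ W

variable {V}

theorem Wt.step {m W : ℕ} {g s : Γ} (h : V.Wt m W g) (hs : s ∈ V.gens m) :
    V.Wt m (W + 1) (s * g) := by
  obtain ⟨Q, hQ, hW⟩ := h
  have hlen := hQ.1
  rcases hs with ⟨i, hi, rfl⟩ | rfl
  · -- decompose the list at `i`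
    obtain ⟨A, B, l2, e⟩ : ∃ A B l2, Q.drop i = A :: B :: l2 := by
      rcases h1 : Q.drop i with _ | ⟨A, _ | ⟨B, l2⟩⟩
      · have := congrArg List.length h1
        rw [List.length_drop, List.length_nil] at this; omega
      · have := congrArg List.length h1
        rw [List.length_drop, List.length_singleton] at this; omega
      · exact ⟨A, B, l2, rfl⟩
    have e2 : Q = Q.take i ++ A :: B :: l2 := by rw [← e, List.take_append_drop]
    have e3 : (Q.take i).length = i := by rw [List.length_take]; omega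
    rw [e2] at hQ hW
    have h2 := hQ.swap
    rw [e3] at h2
    exact ⟨_, h2, (wt_swap _ _ _ _ _).trans (by omega)⟩
  · obtain ⟨A, L, B1, B2, rfl⟩ : ∃ A L B1 B2, Q = A :: (L ++ [B1, B2]) := by
      rcases Q with _ | ⟨A, Q⟩
      · rw [List.length_nil] at hlen; omega
      · rw [List.length_cons] at hlen
        obtain ⟨B1, B2, e⟩ : ∃ B1 B2, Q.drop m = [B1, B2] := by
          rcases h1 : Q.drop m with _ | ⟨B1, _ | ⟨B2, _ | ⟨B3, l2⟩⟩⟩
          · have := congrArg List.length h1
            rw [List.length_drop, List.length_nil] at this; omega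
          · have := congrArg List.length h1
            rw [List.length_drop, List.length_singleton] at this; omega
          · exact ⟨B1, B2, rfl⟩
          · have := congrArg List.length h1
            rw [List.length_drop, List.length_cons, List.length_cons, List.length_cons] at this
            omega
        exact ⟨A, Q.take m, B1, B2, by rw [← e, List.take_append_drop]⟩
    have hL : L.length = m := by
      rw [List.length_cons, List.length_append, List.length_cons, List.length_singleton] at hlen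
      omega
    cases A with
    | leaf =>
      exact ⟨_, hQ.split.ee, (wt_ee' hL B1 B2).trans (by omega)⟩
    | node A1 A2 =>
      exact ⟨_, hQ.ee, (wt_ee hL A1 A2 B1 B2).trans (by omega)⟩

theorem Wt_one (m : ℕ) : V.Wt m (2 * (m + 2) * (m + 3)) 1 := by
  refine ⟨List.replicate (m + 3) .leaf, ⟨List.length_replicate, 1, Subgroup.one_mem _, 1, ?_, ?_⟩,
    wt_leaves _ _ _⟩
  · rw [ncs_leaves]; exact TT_one (m + 2)
  · have : ∀ n k j, V.C k j (List.replicate n .leaf) = 1 := by
      intro n
      induction n with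
      | zero => intro k j; rfl
      | succ n ih =>
        intro k j
        rw [List.replicate_succ]
        show V.C k (j + 1) (List.replicate n .leaf) * 1 = 1
        rw [ih, mul_one]
    rw [this]; group

theorem Wt_ball {m : ℕ} (l : List Γ) : (∀ s ∈ l, s ∈ V.gens m) →
    V.Wt m (2 * (m + 2) * (m + 3) + l.length) l.prod := by
  induction l with
  | nil => intro _; exact Wt_one m
  | cons s l ih =>
    intro h
    have h1 := (ih fun t ht => h t (List.mem_cons_of_mem _ ht)).step (h s List.mem_cons_self)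
    rw [List.prod_cons, List.length_cons]
    exact h1

theorem gens_inv {m : ℕ} {g : Γ} (h : g ∈ V.gens m) : g⁻¹ = g := by
  rcases h with ⟨i, _, rfl⟩ | rfl
  · exact V.S_inv _ _
  · exact inv_eq_of_mul_eq_one_left (V.ee_mul_self m)

/-- Products of at most `(m + 2) ^ 2` slow generators have tree pairs with few leaves. -/
theorem ball_subset (m : ℕ) (S : Set Γ) (hS : S ⊆ V.gens m) :
    {g : Γ | ∃ l : List Γ, l.length ≤ (m + 2) ^ 2 ∧ (∀ x ∈ l, x ∈ S ∨ x⁻¹ ∈ S) ∧ l.prod = g} ⊆
      V.E (3 * m + 8) := by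
  rintro g ⟨l, hl, hlS, rfl⟩
  have h1 : ∀ s ∈ l, s ∈ V.gens m := by
    intro s hs
    rcases hlS s hs with h | h
    · exact hS h
    · have h2 := gens_inv (hS h)
      rw [inv_inv] at h2
      rw [h2]
      exact hS h
  obtain ⟨Q, hQ, hW⟩ := Wt_ball l h1
  have h3 := wt_ge (m + 2) Q 0 (by rw [hQ.1]; omega)
  rw [hQ.1] at h3
  have h4 : m + 3 + ncs Q ≤ 3 * m + 8 := by
    have h5 : (m + 2) * (ncs Q + (m + 3)) ≤ (m + 2) * (3 * m + 8) := by
      refine h3.trans (hW.trans ?_)
      have e : (m + 2) * (3 * m + 8) = 2 * (m + 2) * (m + 3) + (m + 2) ^ 2 := by ring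
      omega
    have := Nat.le_of_mul_le_mul_left h5 (by omega)
    omega
  exact E_mono (by omega) h4 hQ.mem_E

/-! ### Counting -/

theorem TT_fin (k : ℕ) : {g : Γ | V.TT (k + 1) g}.Finite ∧
    {g : Γ | V.TT (k + 1) g}.ncard ≤ (k + 1).factorial := by
  induction k with
  | zero =>
    have h : {g : Γ | V.TT (0 + 1) g} ⊆ {1} := by
      rintro g hg
      generalize hk : 0 + 1 = k at hg
      cases hg with
      | base => rfl
      | step h hi =>
        cases h with
        | base => omega
        | step h hi => omega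
    exact ⟨(Set.finite_singleton 1).subset h,
      (Set.ncard_le_ncard h (Set.finite_singleton 1)).trans (by rw [Set.ncard_singleton]; decide)⟩
  | succ k ih =>
    obtain ⟨h1, h2⟩ := ih
    have h : {g : Γ | V.TT (k + 1 + 1) g} ⊆
        ⋃ i ∈ Finset.range (k + 1), (fun g => g * V.X (k + 1) i) '' {g : Γ | V.TT (k + 1) g} := by
      rintro g hg
      generalize hk : k + 1 + 1 = k' at hg
      cases hg with
      | base => omega
      | @step k'' g i h hi =>
        obtain rfl : k'' = k + 1 := by omega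
        simp only [Set.mem_iUnion, Finset.mem_range, Set.mem_image, exists_prop]
        exact ⟨i, hi, g, h, rfl⟩
    have hU : (⋃ i ∈ Finset.range (k + 1),
        (fun g => g * V.X (k + 1) i) '' {g : Γ | V.TT (k + 1) g}).Finite :=
      Set.Finite.biUnion (Finset.finite_toSet _) (fun j _ => h1.image _)
    refine ⟨hU.subset h, (Set.ncard_le_ncard h hU).trans ?_⟩
    have h3 : ∀ t : Finset ℕ, (⋃ i ∈ t, (fun g => g * V.X (k + 1) i) ''
        {g : Γ | V.TT (k + 1) g}).ncard ≤ t.card * (k + 1).factorial := by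
      intro t
      induction t using Finset.induction_on with
      | empty => simp
      | insert a t ha iht =>
        rw [Finset.set_biUnion_insert, Finset.card_insert_of_notMem ha, add_mul, one_mul]
        refine (Set.ncard_union_le _ _).trans ?_
        have h5 := (Set.ncard_image_le (f := fun g => g * V.X (k + 1) a) h1).trans h2
        have h6 := Nat.add_le_add iht h5
        rw [add_comm]
        exact h6
    refine (h3 _).trans ?_
    rw [Finset.card_range, Nat.factorial_succ (k + 1)]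
    exact Nat.mul_le_mul_right _ (by omega)

theorem E_fin (k : ℕ) : (V.E (k + 1)).Finite ∧ (V.E (k + 1)).ncard ≤ ((k + 1).factorial) ^ 3 := by
  obtain ⟨h1, h2⟩ := TT_fin (V := V) k
  obtain ⟨h3, h4⟩ := Sg_fin (V := V) k
  have hE : V.E (k + 1) ⊆ (fun p : Γ × Γ × Γ => p.1 * p.2.1 * p.2.2⁻¹) ''
      ({g : Γ | V.TT (k + 1) g} ×ˢ (((V.Sg (k + 1) 0 : Subgroup Γ) : Set Γ) ×ˢ
        {g : Γ | V.TT (k + 1) g})) := by
    rintro g ⟨a, w, b, ha, hw, hb, rfl⟩
    exact ⟨(a, w, b), ⟨ha, hw, hb⟩, rfl⟩
  have hf := h1.prod (h3.prod h1)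
  refine ⟨(hf.image _).subset hE, (Set.ncard_le_ncard hE (hf.image _)).trans ?_⟩
  refine (Set.ncard_image_le hf).trans ?_
  rw [Set.ncard_prod, Set.ncard_prod, pow_succ, pow_two, mul_assoc]
  exact Nat.mul_le_mul h2 (Nat.mul_le_mul h4 h2)

end VSys

end Pool.Agent.K6.H89.VU
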